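import Pool.Agent.MWidth.Defs
open MeasureTheory Real
open scoped ENNReal

namespace H952Ent
open HypVol MWidth

/-- The class `W^{a,b}_1` on the two-dimensional torus: integrable `f` whose layers `f_l`
satisfy `‖f_l‖_1 ≤ 2^(-a l) max(l,1)^b` for every `l ≥ 0`. -/
def W1 (a b : ℝ) : Set ((Fin 2 → ℝ) → ℂ) :=
  {f | Integrable f (TP 2) ∧ ∀ l : ℕ, eLpNorm (lay 2 l f) 1 (TP 2)
    ≤ ENNReal.ofReal ((2:ℝ)^(-(a * l)) * (max (l:ℝ) 1)^b)}

end H952Ent
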