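import Pool.Agent.H952Z.Ent.Kern
open MeasureTheory Real
open scoped ENNReal BigOperators ComplexConjugate

/-! The sampling frame of a hyperbolic layer: `l_1` upper bound and `l_2` lower bound. -/

namespace H952Ent
open HypVol MWidth

def mm (s : ℕ) : ℕ := max (2^s / 2) 1

def cc (s : ℕ) (σ : Bool) : ℤ := if σ then 3 * 2^s / 4 else -(3 * 2^s / 4)

theorem mm_pos (s : ℕ) : 1 ≤ mm s := le_max_right _ _

theorem mm_two (s : ℕ) : 2 * mm s ≤ 2^(s+1) := by
  have : 1 ≤ 2^s := Nat.one_le_two_pow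
  unfold mm
  rw [pow_succ]
  omega

theorem mm_cases (s : ℕ) : (s = 0 ∧ mm s = 1 ∧ (3 * 2^s / 4 : ℤ) = 0) ∨
    (s = 1 ∧ mm s = 1 ∧ (3 * 2^s / 4 : ℤ) = 1) ∨
    ∃ X : ℤ, 1 ≤ X ∧ (2:ℤ)^s = 4 * X ∧ (mm s : ℤ) = 2 * X ∧ (3 * 2^s / 4 : ℤ) = 3 * X := by
  match s with
  | 0 => left; simp [mm]
  | 1 => right; left; simp [mm]
  | t + 2 =>
    right; right
    have h1 : 1 ≤ 2^t := Nat.one_le_two_pow
    have h2 : (2:ℤ)^(t+2) = 4 * 2^t := by ring
    have h3 : mm (t+2) = 2 * 2^t := by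
      unfold mm
      rw [show 2^(t+2) = 4 * 2^t by ring]
      omega
    refine ⟨2^t, by exact_mod_cast h1, h2, by rw [h3]; push_cast; ring, ?_⟩
    rw [h2]
    omega

theorem rho_near (s : ℕ) (k : ℤ) (hk : k ∈ rho s) : ∃ σ, 2 * |k - cc s σ| ≤ mm s := by
  obtain ⟨h1, h2⟩ := hk
  rcases mm_cases s with ⟨rfl, a, b⟩ | ⟨rfl, a, b⟩ | ⟨X, hX, a, b, c⟩
  · refine ⟨true, ?_⟩
    simp only [cc, if_true, a, b]
    simp only [pow_zero] at h2
    rw [abs_lt] at h2
    have : k = 0 := by omega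
    simp [this]
  · simp only [pow_one] at h1 h2
    rcases le_total 0 k with h | h
    · rw [abs_of_nonneg h] at h1 h2
      refine ⟨true, ?_⟩
      simp only [cc, if_true, a, b]
      have : k = 1 := by omega
      simp [this]
    · rw [abs_of_nonpos h] at h1 h2
      refine ⟨false, ?_⟩
      simp only [cc, a, b]
      have : k = -1 := by omega
      simp [this]
  · rw [a] at h1 h2
    rcases le_total 0 k with h | h
    · rw [abs_of_nonneg h] at h1 h2
      refine ⟨true, ?_⟩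
      simp only [cc, if_true, b, c]
      have : |k - 3 * X| ≤ X := by rw [abs_le]; omega
      linarith
    · rw [abs_of_nonpos h] at h1 h2
      refine ⟨false, ?_⟩
      simp only [cc, b, c, Bool.false_eq_true, if_false]
      have : |k - -(3 * X)| ≤ X := by rw [abs_le]; omega
      linarith

theorem near_box (s : ℕ) (hs : 1 ≤ s) (σ : Bool) (k : ℤ) (hk : |k - cc s σ| < mm s) :
    (2:ℤ)^s < 4 * |k| ∧ |k| < 2 * 2^s := by
  rw [abs_lt] at hk
  rcases mm_cases s with ⟨rfl, a, b⟩ | ⟨rfl, a, b⟩ | ⟨X, hX, a, b, c⟩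
  · omega
  · cases σ
    · simp only [cc, a, b, Bool.false_eq_true, if_false] at hk
      have : k = -1 := by omega
      simp [this]
    · simp only [cc, a, b, if_true] at hk
      have : k = 1 := by omega
      simp [this]
  · rw [a]
    cases σ
    · simp only [cc, b, c, Bool.false_eq_true, if_false] at hk
      rw [abs_of_nonpos (by omega)]
      omega
    · simp only [cc, b, c, if_true] at hk
      rw [abs_of_nonneg (by omega)]
      omega

def ctr (n s : ℕ) (σ : Bool × Bool) : Fin 2 → ℤ := ![cc s σ.1, cc (n - s) σ.2]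

noncomputable def ca {n : ℕ} (a : (layer 2 n) × Fin 2 → ℝ) (k : layer 2 n) : ℂ :=
  (a (k, 0) : ℂ) + (a (k, 1) : ℂ) * Complex.I

theorem poly_eq {n : ℕ} (a : (layer 2 n) × Fin 2 → ℝ) (x : Fin 2 → ℝ) :
    poly a x = ∑ k : layer 2 n, ca a k * ee k.1 x := rfl

theorem poly_Sp {n : ℕ} (a : (layer 2 n) × Fin 2 → ℝ) (A : Set (Fin 2 → ℤ))
    (h : ∀ k ∈ layer 2 n, k ∈ A) : poly a ∈ Sp A := by
  have e : poly a = ∑ k : layer 2 n, ca a k • ee k.1 := by
    funext x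
    rw [poly_eq]
    simp only [Finset.sum_apply, Pi.smul_apply, smul_eq_mul]
  rw [e]
  exact Submodule.sum_mem _ fun k _ => Submodule.smul_mem _ _ (ee_mem (h _ k.2))

theorem layer_blk {n : ℕ} {k : Fin 2 → ℤ} (hk : k ∈ layer 2 n) :
    ∃ s, s ≤ n ∧ k 0 ∈ rho s ∧ k 1 ∈ rho (n - s) := by
  classical
  unfold layer at hk
  obtain ⟨-, s, h1, h2⟩ := Finset.mem_filter.1 hk
  rw [Fin.sum_univ_two] at h1
  refine ⟨s 0, by omega, h2 0, ?_⟩
  rw [show n - s 0 = s 1 by omega]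
  exact h2 1

theorem layer_Lay {n : ℕ} (hn : 1 ≤ n) : ∀ k ∈ layer 2 n, k ∈ Lay n := by
  intro k hk
  obtain ⟨s, hs, h0, h1⟩ := layer_blk hk
  refine ⟨?_, ?_⟩
  · rintro rfl
    have a0 := (Sol_W_tail.wt_rho_iff _ _).1 h0
    have a1 := (Sol_W_tail.wt_rho_iff _ _).1 h1
    simp at a0 a1
    omega
  · have e : (2:ℤ)^n = 2^s * 2^(n - s) := by rw [← pow_add]; congr 1; omega
    rw [e]
    exact mul_lt_mul'' h0.2 h1.2 (abs_nonneg _) (abs_nonneg _)

/-- the piece of `poly a` cut out by one kernel -/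
noncomputable def gg {n : ℕ} (s : ℕ) (σ : Bool × Bool) (a : (layer 2 n) × Fin 2 → ℝ)
    (y : Fin 2 → ℝ) : ℂ :=
  ∑ k : layer 2 n, (ca a k * (ww (mm s) (mm (n - s)) (ctr n s σ) k.1 : ℂ)) * ee k.1 y

theorem gg_conv {n : ℕ} (s : ℕ) (σ : Bool × Bool) (a : (layer 2 n) × Fin 2 → ℝ) (y : Fin 2 → ℝ) :
    ∫ x, poly a x * KK (mm s) (mm (n - s)) (ctr n s σ) (y - x) ∂(TP 2) = gg s σ a y := by
  have hK := KK_spec (mm s) (mm (n - s)) (ctr n s σ) y Set.univ (fun _ _ _ => Set.mem_univ _)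
  simp only [poly_eq, Finset.sum_mul, mul_assoc]
  rw [integral_finsetSum _ (fun k _ => (Sp_mul_integrable (A := Set.univ)
    (ee_mem (Set.mem_univ _)) hK).const_mul _)]
  unfold gg
  refine Finset.sum_congr rfl fun k _ => ?_
  rw [integral_const_mul, KK_conv, mul_assoc]

theorem gg_sub {n : ℕ} (s : ℕ) (σ : Bool × Bool) (a b : (layer 2 n) × Fin 2 → ℝ) (y : Fin 2 → ℝ) :
    gg s σ (a - b) y = gg s σ a y - gg s σ b y := by
  unfold gg
  rw [← Finset.sum_sub_distrib]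
  refine Finset.sum_congr rfl fun k _ => ?_
  simp only [ca, Pi.sub_apply]
  push_cast
  ring

abbrev Gd (n s : ℕ) := Fin (2^(s+1)) × Fin (2^(n-s+1))

theorem Gd_size (n s : ℕ) (hs : s ≤ n) :
    (((2^(s+1) : ℕ) : ℝ) * ((2^(n-s+1) : ℕ) : ℝ)) = 2^(n+2) := by
  push_cast
  rw [← pow_add]
  congr 1
  omega

theorem gg_parseval {n : ℕ} (s : ℕ) (hs : s ≤ n) (σ : Bool × Bool)
    (a : (layer 2 n) × Fin 2 → ℝ) :
    ∑ j : Gd n s, ‖gg s σ a (gpt j)‖ ^ 2 = 2^(n+2) *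
      ∑ k : layer 2 n, ‖ca a k‖ ^ 2 * ww (mm s) (mm (n - s)) (ctr n s σ) k.1 ^ 2 := by
  unfold gg
  rw [grid_parseval (2^(s+1)) (2^(n-s+1)) (fun k : layer 2 n => k.1), Gd_size n s hs]
  · congr 1
    refine Finset.sum_congr rfl fun k _ => ?_
    rw [norm_mul, mul_pow, Complex.norm_real, Real.norm_eq_abs, sq_abs]
  · intro k l hkl hk hl
    have wk : ww (mm s) (mm (n - s)) (ctr n s σ) k.1 ≠ 0 := by
      intro h; apply hk; rw [h]; simp
    have wl : ww (mm s) (mm (n - s)) (ctr n s σ) l.1 ≠ 0 := by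
      intro h; apply hl; rw [h]; simp
    obtain ⟨k0, k1⟩ := ww_supp _ _ _ _ wk
    obtain ⟨l0, l1⟩ := ww_supp _ _ _ _ wl
    have m1 : (2 * mm s : ℤ) ≤ ((2^(s+1) : ℕ) : ℤ) := by exact_mod_cast mm_two s
    have m2 : (2 * mm (n - s) : ℤ) ≤ ((2^(n-s+1) : ℕ) : ℤ) := by exact_mod_cast mm_two (n - s)
    rw [abs_lt] at k0 k1 l0 l1
    refine ⟨fun h => hkl (Subtype.ext (sub_eq_zero.1 h)), ?_, ?_⟩
    · rw [Pi.sub_apply, abs_lt]; omega
    · rw [Pi.sub_apply, abs_lt]; omega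

theorem ca_sq {n : ℕ} (a : (layer 2 n) × Fin 2 → ℝ) :
    ∑ k : layer 2 n, ‖ca a k‖ ^ 2 = ∑ i, a i ^ 2 := by
  rw [Fintype.sum_prod_type]
  refine Finset.sum_congr rfl fun k _ => ?_
  rw [Fin.sum_univ_two, ca, Complex.sq_norm, Complex.normSq_add_mul_I]

theorem frame_lower {n : ℕ} (a : (layer 2 n) × Fin 2 → ℝ) :
    2^(n+2) / 16 * ∑ i, a i ^ 2 ≤
      ∑ s ∈ Finset.range (n+1), ∑ σ : Bool × Bool, ∑ j : Gd n s, ‖gg s σ a (gpt j)‖ ^ 2 := by
  have e : ∑ s ∈ Finset.range (n+1), ∑ σ : Bool × Bool, ∑ j : Gd n s, ‖gg s σ a (gpt j)‖ ^ 2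
      = 2^(n+2) * ∑ k : layer 2 n, ‖ca a k‖ ^ 2 * ∑ s ∈ Finset.range (n+1), ∑ σ : Bool × Bool,
        ww (mm s) (mm (n - s)) (ctr n s σ) k.1 ^ 2 := by
    have e1 : ∀ s ∈ Finset.range (n+1), ∑ σ : Bool × Bool, ∑ j : Gd n s, ‖gg s σ a (gpt j)‖ ^ 2
        = 2^(n+2) * ∑ k : layer 2 n, ‖ca a k‖ ^ 2 * ∑ σ : Bool × Bool,
          ww (mm s) (mm (n - s)) (ctr n s σ) k.1 ^ 2 := by
      intro s hs
      have hs' : s ≤ n := by simpa [Nat.lt_succ_iff] using hs
      simp only [gg_parseval s hs']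
      rw [← Finset.mul_sum, Finset.sum_comm]
      simp only [Finset.mul_sum]
    rw [Finset.sum_congr rfl e1, ← Finset.mul_sum, Finset.sum_comm]
    simp only [Finset.mul_sum]
  rw [e, ← ca_sq, div_mul_eq_mul_div, mul_div_assoc]
  refine mul_le_mul_of_nonneg_left ?_ (by positivity)
  rw [Finset.sum_div]
  refine Finset.sum_le_sum fun k _ => ?_
  rw [div_eq_mul_one_div]
  refine mul_le_mul_of_nonneg_left ?_ (by positivity)
  obtain ⟨s, hs, h0, h1⟩ := layer_blk k.2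
  obtain ⟨σ0, a0⟩ := rho_near s _ h0
  obtain ⟨σ1, a1⟩ := rho_near (n - s) _ h1
  have hw := ww_low (mm s) (mm (n - s)) (mm_pos _) (mm_pos _) (ctr n s (σ0, σ1)) k.1
    (by simpa [ctr] using a0) (by simpa [ctr] using a1)
  have b1 : (1:ℝ) / 16 ≤ ww (mm s) (mm (n - s)) (ctr n s (σ0, σ1)) k.1 ^ 2 := by nlinarith
  refine b1.trans (le_trans ?_ (Finset.single_le_sum (f := fun s => ∑ σ : Bool × Bool,
    ww (mm s) (mm (n - s)) (ctr n s σ) k.1 ^ 2) (fun s _ => by positivity)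
    (Finset.mem_range.2 (Nat.lt_succ_of_le hs))))
  exact Finset.single_le_sum (f := fun σ : Bool × Bool =>
    ww (mm s) (mm (n - s)) (ctr n s σ) k.1 ^ 2) (fun σ _ => by positivity) (Finset.mem_univ _)

/-- the dual function of one block -/
theorem block_dual {n : ℕ} (s : ℕ) (hs : s ≤ n) (a : (layer 2 n) × Fin 2 → ℝ) :
    ∃ t : (Fin 2 → ℝ) → ℂ, t ∈ Sp Set.univ ∧ (1 ≤ s → s < n → t ∈ Sp (Box n s)) ∧
      (∀ x, ‖t x‖ ≤ 4 * 2^(n+2)) ∧
      ∫ x, poly a x * t x ∂(TP 2) =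
        ((∑ σ : Bool × Bool, ∑ j : Gd n s, ‖gg s σ a (gpt j)‖ : ℝ) : ℂ) := by
  have hη : ∀ (σ : Bool × Bool) (j : Gd n s), ∃ c : ℂ, ‖c‖ = 1 ∧
      (‖gg s σ a (gpt j)‖ : ℂ) = c * gg s σ a (gpt j) :=
    fun σ j => Complex.exists_norm_eq_mul_self _
  choose η hη1 hη2 using hη
  have hsp : ∀ A : Set (Fin 2 → ℤ), (∀ σ : Bool × Bool, ∀ q : Fin 2 → ℤ,
      |q 0 - ctr n s σ 0| < mm s → |q 1 - ctr n s σ 1| < mm (n - s) → -q ∈ A) →
      (∑ σ : Bool × Bool, ∑ j : Gd n s, η σ j •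
        fun x => KK (mm s) (mm (n - s)) (ctr n s σ) (gpt j - x)) ∈ Sp A := by
    intro A hA
    exact Submodule.sum_mem _ fun σ _ => Submodule.sum_mem _ fun j _ =>
      Submodule.smul_mem _ _ (KK_spec _ _ _ _ A (hA σ))
  refine ⟨∑ σ : Bool × Bool, ∑ j : Gd n s, η σ j •
    fun x => KK (mm s) (mm (n - s)) (ctr n s σ) (gpt j - x),
    hsp _ (fun _ _ _ _ => Set.mem_univ _), ?_, ?_, ?_⟩
  · intro h1 h2
    refine hsp _ fun σ q a0 a1 => Box_neg n s q ?_
    have b0 := near_box s h1 σ.1 (q 0) (by simpa [ctr] using a0)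
    have b1 := near_box (n - s) (by omega) σ.2 (q 1) (by simpa [ctr] using a1)
    exact ⟨b0.1, b0.2, b1.1, b1.2⟩
  · intro x
    simp only [Finset.sum_apply, Pi.smul_apply, smul_eq_mul]
    refine (norm_sum_le _ _).trans ?_
    have e : ∀ σ : Bool × Bool, ‖∑ j : Gd n s, η σ j *
        KK (mm s) (mm (n - s)) (ctr n s σ) (gpt j - x)‖ ≤ 2^(n+2) := by
      intro σ
      refine (norm_sum_le _ _).trans (le_of_eq ?_)
      simp only [norm_mul, hη1, one_mul]
      have m1 := mm_two s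
      have m2 := mm_two (n - s)
      rw [KK_grid _ _ _ _ (mm_pos _) (mm_pos _) (by omega) (by omega), Gd_size n s hs]
    refine (Finset.sum_le_sum fun σ _ => e σ).trans (le_of_eq ?_)
    simp
  · have hp : poly a ∈ Sp Set.univ := poly_Sp a _ (fun _ _ => Set.mem_univ _)
    have hi : ∀ (σ : Bool × Bool) (j : Gd n s), Integrable (fun x => η σ j * (poly a x *
        KK (mm s) (mm (n - s)) (ctr n s σ) (gpt j - x))) (TP 2) := fun σ j =>
      (Sp_mul_integrable hp (KK_spec _ _ _ _ Set.univ (fun _ _ _ => Set.mem_univ _))).const_mul _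
    have e : ∀ x, poly a x * (∑ σ : Bool × Bool, ∑ j : Gd n s, η σ j •
        fun x => KK (mm s) (mm (n - s)) (ctr n s σ) (gpt j - x)) x =
        ∑ σ : Bool × Bool, ∑ j : Gd n s, η σ j * (poly a x *
        KK (mm s) (mm (n - s)) (ctr n s σ) (gpt j - x)) := by
      intro x
      simp only [Finset.sum_apply, Pi.smul_apply, smul_eq_mul, Finset.mul_sum]
      refine Finset.sum_congr rfl fun σ _ => Finset.sum_congr rfl fun j _ => ?_
      ring
    simp only [e]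
    rw [integral_finsetSum _ (fun σ _ => integrable_finsetSum _ (fun j _ => hi σ j)),
      Complex.ofReal_sum]
    refine Finset.sum_congr rfl fun σ _ => ?_
    rw [integral_finsetSum _ (fun j _ => hi σ j), Complex.ofReal_sum]
    refine Finset.sum_congr rfl fun j _ => ?_
    rw [integral_const_mul, gg_conv, hη2]

theorem frame_upper {n : ℕ} (a : (layer 2 n) × Fin 2 → ℝ) :
    ∑ s ∈ Finset.range (n+1), ∑ σ : Bool × Bool, ∑ j : Gd n s, ‖gg s σ a (gpt j)‖ ≤
      120 * 2^(n+2) * Real.sqrt (n + 1) * ∫ x, ‖poly a x‖ ∂(TP 2) := by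
  classical
  set S : ℕ → ℝ := fun s => ∑ σ : Bool × Bool, ∑ j : Gd n s, ‖gg s σ a (gpt j)‖ with hS
  set N : ℝ := ∫ x, ‖poly a x‖ ∂(TP 2) with hN
  have hN0 : 0 ≤ N := integral_nonneg fun _ => norm_nonneg _
  have hS0 : ∀ s, 0 ≤ S s := fun s => by positivity
  have hp : poly a ∈ Sp Set.univ := poly_Sp a _ (fun _ _ => Set.mem_univ _)
  have hex : ∀ s, ∃ t : (Fin 2 → ℝ) → ℂ, s ≤ n → (t ∈ Sp Set.univ ∧
      (1 ≤ s → s < n → t ∈ Sp (Box n s)) ∧ (∀ x, ‖t x‖ ≤ 4 * 2^(n+2)) ∧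
      ∫ x, poly a x * t x ∂(TP 2) = ((S s : ℝ) : ℂ)) := by
    intro s
    by_cases hs : s ≤ n
    · obtain ⟨t, ht⟩ := block_dual s hs a
      exact ⟨t, fun _ => ht⟩
    · exact ⟨0, fun h => absurd h hs⟩
  choose t ht using hex
  have one : ∀ s, s ≤ n → S s ≤ 4 * 2^(n+2) * N := by
    intro s hs
    obtain ⟨h1, -, h3, h4⟩ := ht s hs
    have : S s = ‖∫ x, poly a x * t s x ∂(TP 2)‖ := by
      rw [h4, Complex.norm_real, Real.norm_eq_abs, abs_of_nonneg (hS0 s)]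
    rw [this, hN, ← integral_const_mul]
    refine norm_integral_le_of_norm_le ((Sp_integrable hp).norm.const_mul _) (ae_of_all _ fun x => ?_)
    rw [norm_mul, mul_comm]
    exact mul_le_mul_of_nonneg_right (h3 x) (norm_nonneg _)
  have hq1 : 1 ≤ Real.sqrt (n + 1) := Real.one_le_sqrt.2 (by linarith [Nat.cast_nonneg (α := ℝ) n])
  have hq2 : Real.sqrt n ≤ Real.sqrt (n + 1) := Real.sqrt_le_sqrt (by linarith)
  have cls : ∀ r : ℕ, ∑ s ∈ (Finset.Ioo 0 n).filter (fun s => s % 7 = r), S s ≤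
      16 * 2^(n+2) * Real.sqrt (n + 1) * N := by
    intro r
    rcases Nat.eq_zero_or_pos n with h0 | hn
    · have : (Finset.Ioo 0 n).filter (fun s => s % 7 = r) = ∅ := by
        rw [h0]; simp
      rw [this, Finset.sum_empty]
      positivity
    set I := (Finset.Ioo 0 n).filter (fun s => s % 7 = r) with hI
    have hI' : ∀ s ∈ I, 1 ≤ s ∧ s < n ∧ s % 7 = r := by
      intro s hs
      simp only [hI, Finset.mem_filter, Finset.mem_Ioo] at hs
      omega
    have key := riesz_cx n hn t I (fun s hs => (hI' s hs).2.1)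
      (fun s hs u hu hsu => by have := hI' s hs; have := hI' u hu; omega)
      (fun s hs => (ht s (hI' s hs).2.1.le).2.1 (hI' s hs).1 (hI' s hs).2.1) (4 * 2^(n+2))
      (by positivity) (fun s hs => (ht s (hI' s hs).2.1.le).2.2.1) (poly_Sp a _ (layer_Lay hn))
    have e : ∫ x, poly a x * ∑ s ∈ I, t s x ∂(TP 2) = ((∑ s ∈ I, S s : ℝ) : ℂ) := by
      simp only [Finset.mul_sum]
      rw [integral_finsetSum _ (fun s hs => Sp_mul_integrable hp (ht s (hI' s hs).2.1.le).1),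
        Complex.ofReal_sum]
      exact Finset.sum_congr rfl fun s hs => (ht s (hI' s hs).2.1.le).2.2.2
    rw [e, Complex.norm_real, Real.norm_eq_abs,
      abs_of_nonneg (Finset.sum_nonneg fun s _ => hS0 s)] at key
    refine key.trans ?_
    have : 4 * (4 * (2:ℝ)^(n+2)) * Real.sqrt n * N = 16 * 2^(n+2) * Real.sqrt n * N := by ring
    rw [this]
    gcongr
  have mid : ∑ s ∈ Finset.Ioo 0 n, S s ≤ 7 * (16 * 2^(n+2) * Real.sqrt (n + 1) * N) := by
    rw [← Finset.sum_fiberwise_of_maps_to (s := Finset.Ioo 0 n) (t := Finset.range 7)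
      (g := fun s => s % 7) (fun s _ => Finset.mem_range.2 (Nat.mod_lt _ (by norm_num)))]
    refine (Finset.sum_le_sum fun r _ => cls r).trans (le_of_eq ?_)
    simp
  have sub : Finset.range (n+1) ⊆ insert 0 (insert n (Finset.Ioo 0 n)) := by
    intro s hs
    simp only [Finset.mem_range, Finset.mem_insert, Finset.mem_Ioo] at hs ⊢
    omega
  have ins : ∀ (u : ℕ) (J : Finset ℕ), ∑ s ∈ insert u J, S s ≤ S u + ∑ s ∈ J, S s := by
    intro u J
    by_cases h : u ∈ J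
    · rw [Finset.insert_eq_of_mem h]; linarith [hS0 u]
    · rw [Finset.sum_insert h]
  have tot : ∑ s ∈ Finset.range (n+1), S s ≤ S 0 + (S n + ∑ s ∈ Finset.Ioo 0 n, S s) :=
    (Finset.sum_le_sum_of_subset_of_nonneg sub (fun s _ _ => hS0 s)).trans
      ((ins _ _).trans (by linarith [ins n (Finset.Ioo 0 n)]))
  have o0 := one 0 (Nat.zero_le _)
  have on := one n le_rfl
  have hh : 2^(n+2) * N ≤ 2^(n+2) * Real.sqrt (n + 1) * N := by
    have : (0:ℝ) ≤ 2^(n+2) * N := by positivity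
    nlinarith
  nlinarith

/-- the sampling frame -/
theorem frame (n : ℕ) : ∃ (ι : Type) (_ : Fintype ι) (T : ((layer 2 n) × Fin 2 → ℝ) → ι → ℝ),
    (Fintype.card ι : ℝ) = 32 * (n + 1) * 2^n ∧ (∀ a b, T (a - b) = T a - T b) ∧
    (∀ a, ∑ i, |T a i| ≤ 240 * 2^(n+2) * Real.sqrt (n + 1) * ∫ x, ‖poly a x‖ ∂(TP 2)) ∧
    (∀ a, 2^(n+2) / 16 * ∑ i, a i ^ 2 ≤ ∑ i, T a i ^ 2) := by
  refine ⟨(Σ s : Fin (n+1), (Bool × Bool) × Gd n s) × Bool, inferInstance,
    fun a i => if i.2 then (gg i.1.1 i.1.2.1 a (gpt i.1.2.2)).re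
      else (gg i.1.1 i.1.2.1 a (gpt i.1.2.2)).im, ?_, ?_, ?_, ?_⟩
  · rw [Fintype.card_prod, Fintype.card_sigma]
    have e : ∀ s : Fin (n+1), Fintype.card ((Bool × Bool) × Gd n s) = 4 * 2^(n+2) := by
      intro s
      have := s.2
      simp only [Fintype.card_prod, Fintype.card_bool, Fintype.card_fin]
      rw [← pow_add, show (s:ℕ) + 1 + (n - s + 1) = n + 2 by omega]
    simp only [e, Finset.sum_const, Finset.card_univ, Fintype.card_fin, Fintype.card_bool,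
      smul_eq_mul]
    push_cast
    ring
  · intro a b
    funext i
    simp only [Pi.sub_apply, gg_sub]
    split_ifs <;> simp
  · intro a
    have h := frame_upper a
    rw [Finset.sum_range] at h
    rw [Fintype.sum_prod_type, Fintype.sum_sigma]
    have e : ∀ s : Fin (n+1), ∑ q : (Bool × Bool) × Gd n s, ∑ b : Bool,
        |if b then (gg s q.1 a (gpt q.2)).re else (gg s q.1 a (gpt q.2)).im| ≤
        2 * ∑ σ : Bool × Bool, ∑ j : Gd n s, ‖gg s σ a (gpt j)‖ := by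
      intro s
      rw [Fintype.sum_prod_type, Finset.mul_sum]
      refine Finset.sum_le_sum fun σ _ => ?_
      rw [Finset.mul_sum]
      refine Finset.sum_le_sum fun j _ => ?_
      rw [Fintype.sum_bool]
      simp only [if_true, Bool.false_eq_true, if_false]
      linarith [Complex.abs_re_le_norm (gg s σ a (gpt j)), Complex.abs_im_le_norm (gg s σ a (gpt j))]
    refine (Finset.sum_le_sum fun s _ => e s).trans ?_
    rw [← Finset.mul_sum]
    linarith
  · intro a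
    have h := frame_lower a
    rw [Finset.sum_range] at h
    refine h.trans (le_of_eq ?_)
    rw [Fintype.sum_prod_type (f := fun i : (Σ s : Fin (n+1), (Bool × Bool) × Gd n s) × Bool =>
      (if i.2 then (gg i.1.1 i.1.2.1 a (gpt i.1.2.2)).re
      else (gg i.1.1 i.1.2.1 a (gpt i.1.2.2)).im) ^ 2), Fintype.sum_sigma]
    refine Finset.sum_congr rfl fun s _ => ?_
    rw [Fintype.sum_prod_type (f := fun q : (Bool × Bool) × Gd n s => ∑ b : Bool,
        (if b then (gg s q.1 a (gpt q.2)).re else (gg s q.1 a (gpt q.2)).im) ^ 2)]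
    refine Finset.sum_congr rfl fun σ _ => Finset.sum_congr rfl fun j _ => ?_
    rw [Fintype.sum_bool]
    simp only [if_true, Bool.false_eq_true, if_false]
    rw [Complex.sq_norm, Complex.normSq_apply]
    ring

end H952Ent
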