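import Pool.Agent.H952Z.Ent.Trig
open MeasureTheory Real
open scoped ENNReal BigOperators ComplexConjugate

/-! Grids, discrete Parseval identity, modulated Fejer kernels. -/

namespace H952Ent
open HypVol MWidth

theorem grid_one (Q : ℕ) (r : ℤ) (h : |r| < Q) (hr : r ≠ 0) :
    ∑ j : Fin Q, Complex.exp (Complex.I * (((r:ℝ) * (2 * π * (j:ℕ) / Q) : ℝ) : ℂ)) = 0 := by
  have hQ : 0 < Q := by
    have := abs_nonneg r
    omega
  have hQc : (Q:ℂ) ≠ 0 := by exact_mod_cast hQ.ne'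
  set z : ℂ := Complex.exp (2 * π * Complex.I * r / Q) with hz
  have e : ∀ j : Fin Q, Complex.exp (Complex.I * (((r:ℝ) * (2 * π * (j:ℕ) / Q) : ℝ) : ℂ))
      = z ^ (j:ℕ) := by
    intro j
    rw [hz, ← Complex.exp_nat_mul]
    congr 1
    push_cast
    ring
  simp only [e]
  rw [Fin.sum_univ_eq_sum_range (fun j => z ^ j) Q]
  have h1 : z ^ Q = 1 := by
    rw [hz, ← Complex.exp_nat_mul, Complex.exp_eq_one_iff]
    refine ⟨r, ?_⟩
    field_simp
  have h2 : z ≠ 1 := by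
    intro h3
    rw [hz, Complex.exp_eq_one_iff] at h3
    obtain ⟨m, hm⟩ := h3
    have hpi : (π:ℂ) ≠ 0 := by exact_mod_cast Real.pi_ne_zero
    have hI := Complex.I_ne_zero
    have h4 : (r:ℂ) = m * Q := by
      field_simp at hm
      linear_combination hm
    have h5 : r = m * Q := by exact_mod_cast h4
    have hm0 : m ≠ 0 := by rintro rfl; simp at h5; exact hr h5
    have h6 : 1 ≤ |m| := Int.one_le_abs hm0
    rw [h5, abs_mul, Nat.abs_cast] at h
    have : (0:ℤ) < Q := by exact_mod_cast hQ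
    nlinarith
  have h7 := geom_sum_mul z Q
  rw [h1, sub_self] at h7
  exact (mul_eq_zero.1 h7).resolve_right (sub_ne_zero.2 h2)

/-- points of the grid -/
noncomputable def gpt {Q1 Q2 : ℕ} (j : Fin Q1 × Fin Q2) : Fin 2 → ℝ :=
  ![2 * π * (j.1 : ℕ) / Q1, 2 * π * (j.2 : ℕ) / Q2]

theorem grid_sum (Q1 Q2 : ℕ) (r : Fin 2 → ℤ) (h0 : |r 0| < Q1) (h1 : |r 1| < Q2) (hr : r ≠ 0) :
    ∑ j : Fin Q1 × Fin Q2, ee r (gpt j) = 0 := by
  have e : ∀ j : Fin Q1 × Fin Q2, ee r (gpt j) =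
      Complex.exp (Complex.I * ((((r 0 : ℤ):ℝ) * (2 * π * (j.1:ℕ) / Q1) : ℝ) : ℂ)) *
      Complex.exp (Complex.I * ((((r 1 : ℤ):ℝ) * (2 * π * (j.2:ℕ) / Q2) : ℝ) : ℂ)) := by
    intro j
    unfold ee gpt
    rw [← Complex.exp_add]
    congr 1
    simp only [Fin.sum_univ_two, Matrix.cons_val_zero, Matrix.cons_val_one]
    push_cast
    ring
  simp only [e]
  rw [Fintype.sum_prod_type]
  simp only []
  rw [← Finset.sum_mul_sum]
  by_cases h : r 0 = 0
  · have h' : r 1 ≠ 0 := by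
      intro h'
      apply hr
      funext i
      fin_cases i
      · exact h
      · exact h'
    rw [grid_one Q2 (r 1) h1 h', mul_zero]
  · rw [grid_one Q1 (r 0) h0 h, zero_mul]

theorem grid_parseval (Q1 Q2 : ℕ) {A : Type} [Fintype A] (fr : A → Fin 2 → ℤ) (b : A → ℂ)
    (h : ∀ α β, α ≠ β → b α ≠ 0 → b β ≠ 0 →
      fr α - fr β ≠ 0 ∧ |(fr α - fr β) 0| < Q1 ∧ |(fr α - fr β) 1| < Q2) :
    ∑ j : Fin Q1 × Fin Q2, ‖∑ α, b α * ee (fr α) (gpt j)‖ ^ 2
      = (Q1 * Q2 : ℝ) * ∑ α, ‖b α‖ ^ 2 := by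
  classical
  have sq : ∀ z : ℂ, ((‖z‖ ^ 2 : ℝ) : ℂ) = z * conj z := by
    intro z
    rw [Complex.mul_conj, Complex.normSq_eq_norm_sq]
  apply Complex.ofReal_injective
  rw [Complex.ofReal_sum, Complex.ofReal_mul, Complex.ofReal_sum]
  simp only [sq]
  have e : ∀ j : Fin Q1 × Fin Q2, (∑ α, b α * ee (fr α) (gpt j)) * conj (∑ α, b α * ee (fr α) (gpt j))
      = ∑ α, ∑ β, b α * conj (b β) * ee (fr α - fr β) (gpt j) := by
    intro j
    rw [map_sum, Finset.sum_mul_sum]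
    refine Finset.sum_congr rfl fun α _ => Finset.sum_congr rfl fun β _ => ?_
    rw [map_mul, ee_conj, sub_eq_add_neg, ee_add]
    ring
  simp only [e]
  rw [Finset.sum_comm, Finset.mul_sum]
  refine Finset.sum_congr rfl fun α _ => ?_
  rw [Finset.sum_comm, Finset.sum_eq_single α]
  · simp only [sub_self, ee_zero, mul_one, Finset.sum_const, Finset.card_univ, Fintype.card_prod,
      Fintype.card_fin, nsmul_eq_mul]
    push_cast
    ring
  · intro β _ hβ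
    rw [← Finset.mul_sum]
    by_cases h1 : b α = 0
    · simp [h1]
    by_cases h2 : b β = 0
    · simp [h2]
    obtain ⟨k1, k2, k3⟩ := h α β (Ne.symm hβ) h1 h2
    rw [grid_sum Q1 Q2 _ k2 k3 k1, mul_zero]
  · intro h1
    exact absurd (Finset.mem_univ _) h1

def fq {m1 m2 : ℕ} (α : Fin m1 × Fin m2) : Fin 2 → ℤ := ![((α.1 : ℕ) : ℤ), ((α.2 : ℕ) : ℤ)]

noncomputable def DD (m1 m2 : ℕ) (z : Fin 2 → ℝ) : ℂ := ∑ α : Fin m1 × Fin m2, ee (fq α) z

/-- modulated product Fejer kernel -/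
noncomputable def KK (m1 m2 : ℕ) (c : Fin 2 → ℤ) (z : Fin 2 → ℝ) : ℂ :=
  ((m1 * m2 : ℝ)⁻¹ : ℝ) * ∑ α : Fin m1 × Fin m2, ∑ β : Fin m1 × Fin m2, ee (c + fq α - fq β) z

/-- its Fourier coefficients -/
noncomputable def ww (m1 m2 : ℕ) (c k : Fin 2 → ℤ) : ℝ :=
  (m1 * m2 : ℝ)⁻¹ * ∑ α : Fin m1 × Fin m2, ∑ β : Fin m1 × Fin m2,
    if c + fq α - fq β = k then 1 else 0

theorem KK_norm (m1 m2 : ℕ) (c : Fin 2 → ℤ) (z : Fin 2 → ℝ) :
    ‖KK m1 m2 c z‖ = (m1 * m2 : ℝ)⁻¹ * ‖DD m1 m2 z‖ ^ 2 := by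
  have e : ∑ α : Fin m1 × Fin m2, ∑ β : Fin m1 × Fin m2, ee (c + fq α - fq β) z
      = ee c z * (DD m1 m2 z * conj (DD m1 m2 z)) := by
    unfold DD
    rw [map_sum, Finset.sum_mul_sum, Finset.mul_sum]
    refine Finset.sum_congr rfl fun α _ => ?_
    rw [Finset.mul_sum]
    refine Finset.sum_congr rfl fun β _ => ?_
    rw [ee_conj, sub_eq_add_neg, ee_add, ee_add]
    ring
  unfold KK
  rw [e, norm_mul, norm_mul, norm_mul, ee_norm, Complex.norm_conj, Complex.norm_real,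
    Real.norm_eq_abs, abs_of_nonneg (by positivity)]
  ring

theorem KK_grid (m1 m2 Q1 Q2 : ℕ) (hm1 : 1 ≤ m1) (hm2 : 1 ≤ m2) (h1 : m1 ≤ Q1) (h2 : m2 ≤ Q2)
    (c : Fin 2 → ℤ) (x : Fin 2 → ℝ) :
    ∑ j : Fin Q1 × Fin Q2, ‖KK m1 m2 c (gpt j - x)‖ = Q1 * Q2 := by
  simp only [KK_norm]
  rw [← Finset.mul_sum]
  have e : ∀ j : Fin Q1 × Fin Q2, DD m1 m2 (gpt j - x)
      = ∑ α : Fin m1 × Fin m2, ee (-fq α) x * ee (fq α) (gpt j) := by
    intro j
    unfold DD
    refine Finset.sum_congr rfl fun α _ => ?_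
    rw [ee_sub_arg, mul_comm]
  simp only [e]
  rw [grid_parseval Q1 Q2 fq (fun α : Fin m1 × Fin m2 => ee (-fq α) x)]
  · simp only [ee_norm, one_pow, Finset.sum_const, Finset.card_univ, Fintype.card_prod,
      Fintype.card_fin, nsmul_eq_mul, mul_one]
    have : (m1:ℝ) ≠ 0 := by positivity
    have : (m2:ℝ) ≠ 0 := by positivity
    push_cast
    field_simp
  · intro α β hne _ _
    have a1 := α.1.2
    have a2 := α.2.2
    have b1 := β.1.2
    have b2 := β.2.2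
    refine ⟨?_, ?_, ?_⟩
    · intro h
      apply hne
      have k0 := congrFun h 0
      have k1 := congrFun h 1
      simp only [fq, Pi.sub_apply, Matrix.cons_val_zero, Matrix.cons_val_one, Pi.zero_apply] at k0 k1
      exact Prod.ext (Fin.ext (by omega)) (Fin.ext (by omega))
    · simp only [fq, Pi.sub_apply, Matrix.cons_val_zero]
      rw [abs_lt]; omega
    · simp only [fq, Pi.sub_apply, Matrix.cons_val_one, Matrix.cons_val_zero]
      rw [abs_lt]; omega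

theorem KK_conv (m1 m2 : ℕ) (c k : Fin 2 → ℤ) (y : Fin 2 → ℝ) :
    ∫ x, ee k x * KK m1 m2 c (y - x) ∂(TP 2) = (ww m1 m2 c k : ℂ) * ee k y := by
  have e : ∀ x, ee k x * KK m1 m2 c (y - x) = ((m1 * m2 : ℝ)⁻¹ : ℝ) *
      ∑ α : Fin m1 × Fin m2, ∑ β : Fin m1 × Fin m2,
        ee (c + fq α - fq β) y * ee (k - (c + fq α - fq β)) x := by
    intro x
    unfold KK
    rw [mul_left_comm, Finset.mul_sum]
    congr 1
    refine Finset.sum_congr rfl fun α _ => ?_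
    rw [Finset.mul_sum]
    refine Finset.sum_congr rfl fun β _ => ?_
    rw [ee_sub_arg, sub_eq_add_neg k, ee_add]
    ring
  simp only [e]
  rw [integral_const_mul, integral_finsetSum _ (fun α _ => integrable_finsetSum _
    (fun β _ => (ee_integrable _).const_mul _))]
  unfold ww
  rw [Complex.ofReal_mul, mul_assoc]
  congr 1
  rw [Complex.ofReal_sum, Finset.sum_mul]
  refine Finset.sum_congr rfl fun α _ => ?_
  rw [integral_finsetSum _ (fun β _ => (ee_integrable _).const_mul _), Complex.ofReal_sum,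
    Finset.sum_mul]
  refine Finset.sum_congr rfl fun β _ => ?_
  rw [integral_const_mul, ee_int]
  by_cases h : c + fq α - fq β = k
  · rw [if_pos h, if_pos (by rw [h, sub_self]), h]; simp
  · rw [if_neg h, if_neg (fun h' => h (sub_eq_zero.1 h').symm)]; simp

theorem fq_range {m1 m2 : ℕ} (c : Fin 2 → ℤ) (α β : Fin m1 × Fin m2) :
    |(c + fq α - fq β) 0 - c 0| < m1 ∧ |(c + fq α - fq β) 1 - c 1| < m2 := by
  have a1 := α.1.2
  have a2 := α.2.2
  have b1 := β.1.2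
  have b2 := β.2.2
  simp only [fq, Pi.sub_apply, Pi.add_apply, Matrix.cons_val_zero, Matrix.cons_val_one]
  constructor <;> rw [abs_lt] <;> omega

theorem ww_supp (m1 m2 : ℕ) (c k : Fin 2 → ℤ) (h : ww m1 m2 c k ≠ 0) :
    |k 0 - c 0| < m1 ∧ |k 1 - c 1| < m2 := by
  by_contra hc
  apply h
  unfold ww
  rw [Finset.sum_eq_zero, mul_zero]
  intro α _
  refine Finset.sum_eq_zero fun β _ => ?_
  rw [if_neg]
  intro h1
  apply hc
  rw [← h1]
  exact fq_range c α β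

theorem KK_spec (m1 m2 : ℕ) (c : Fin 2 → ℤ) (y : Fin 2 → ℝ) (A : Set (Fin 2 → ℤ))
    (h : ∀ q : Fin 2 → ℤ, |q 0 - c 0| < m1 → |q 1 - c 1| < m2 → -q ∈ A) :
    (fun x => KK m1 m2 c (y - x)) ∈ Sp A := by
  have e : (fun x => KK m1 m2 c (y - x)) = (((m1 * m2 : ℝ)⁻¹ : ℝ) : ℂ) •
      ∑ α : Fin m1 × Fin m2, ∑ β : Fin m1 × Fin m2,
        ee (c + fq α - fq β) y • ee (-(c + fq α - fq β)) := by
    funext x
    unfold KK
    simp only [Pi.smul_apply, Finset.sum_apply, smul_eq_mul, ee_sub_arg]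
  rw [e]
  refine Submodule.smul_mem _ _ (Submodule.sum_mem _ fun α _ => Submodule.sum_mem _ fun β _ =>
    Submodule.smul_mem _ _ (ee_mem ?_))
  exact h _ (fq_range c α β).1 (fq_range c α β).2

noncomputable def cnt (m : ℕ) (r : ℤ) : ℝ :=
  ∑ l : Fin m, ∑ l' : Fin m, if ((l : ℕ) : ℤ) - ((l' : ℕ) : ℤ) = r then 1 else 0

theorem cnt_neg (m : ℕ) (r : ℤ) : cnt m (-r) = cnt m r := by
  unfold cnt
  rw [Finset.sum_comm]
  refine Finset.sum_congr rfl fun l _ => Finset.sum_congr rfl fun l' _ => ?_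
  refine if_congr ?_ rfl rfl
  omega

theorem cnt_ge0 (m : ℕ) (r : ℕ) (h : r ≤ m) : (m : ℝ) - r ≤ cnt m r := by
  unfold cnt
  rw [Finset.sum_comm]
  have h1 : ∀ l' : Fin m, (if (l' : ℕ) < m - r then (1:ℝ) else 0) ≤
      ∑ l : Fin m, if ((l : ℕ) : ℤ) - ((l' : ℕ) : ℤ) = r then 1 else 0 := by
    intro l'
    by_cases h2 : (l' : ℕ) < m - r
    · rw [if_pos h2]
      refine le_trans ?_ (Finset.single_le_sum (f := fun l : Fin m =>
        if ((l : ℕ) : ℤ) - ((l' : ℕ) : ℤ) = r then (1:ℝ) else 0)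
        (fun l _ => by split_ifs <;> norm_num) (Finset.mem_univ ⟨l' + r, by omega⟩))
      rw [if_pos]
      push_cast
      ring
    · rw [if_neg h2]
      exact Finset.sum_nonneg fun l _ => by split_ifs <;> norm_num
  refine le_trans ?_ (Finset.sum_le_sum fun l' _ => h1 l')
  rw [Fin.sum_univ_eq_sum_range (fun l => if l < m - r then (1:ℝ) else 0) m, ← Finset.sum_filter]
  have : (Finset.range m).filter (fun l => l < m - r) = Finset.range (m - r) := by
    ext l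
    simp only [Finset.mem_filter, Finset.mem_range]
    omega
  rw [this, Finset.sum_const, Finset.card_range, nsmul_eq_mul, mul_one, Nat.cast_sub h]

theorem cnt_ge (m : ℕ) (r : ℤ) (h : 2 * |r| ≤ m) : (m : ℝ) / 2 ≤ cnt m r := by
  have h1 : cnt m r = cnt m (r.natAbs : ℕ) := by
    rcases Int.natAbs_eq r with h2 | h2
    · rw [← h2]
    · conv_lhs => rw [h2]
      exact cnt_neg _ _
  have h2 : 2 * r.natAbs ≤ m := by
    have : (r.natAbs : ℤ) = |r| := Int.natCast_natAbs r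
    omega
  have h3 := cnt_ge0 m r.natAbs (by omega)
  have h4 : (2 * r.natAbs : ℝ) ≤ m := by exact_mod_cast h2
  rw [h1]
  linarith

theorem ww_low (m1 m2 : ℕ) (hm1 : 1 ≤ m1) (hm2 : 1 ≤ m2) (c k : Fin 2 → ℤ)
    (h0 : 2 * |k 0 - c 0| ≤ m1) (h1 : 2 * |k 1 - c 1| ≤ m2) : 1 / 4 ≤ ww m1 m2 c k := by
  have e : (∑ α : Fin m1 × Fin m2, ∑ β : Fin m1 × Fin m2,
      if c + fq α - fq β = k then (1:ℝ) else 0) = cnt m1 (k 0 - c 0) * cnt m2 (k 1 - c 1) := by
    unfold cnt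
    rw [Finset.sum_mul_sum, Fintype.sum_prod_type]
    refine Finset.sum_congr rfl fun l _ => Finset.sum_congr rfl fun p _ => ?_
    rw [Finset.sum_mul_sum, Fintype.sum_prod_type]
    refine Finset.sum_congr rfl fun l' _ => Finset.sum_congr rfl fun p' _ => ?_
    have : (c + fq (l, p) - fq (l', p') = k) ↔
        ((((l : ℕ) : ℤ) - ((l' : ℕ) : ℤ) = k 0 - c 0) ∧ (((p : ℕ) : ℤ) - ((p' : ℕ) : ℤ) = k 1 - c 1)) := by
      rw [funext_iff, Fin.forall_fin_two]
      simp only [fq, Pi.sub_apply, Pi.add_apply, Matrix.cons_val_zero, Matrix.cons_val_one]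
      omega
    rw [if_congr this rfl rfl, ite_and]
    split_ifs <;> simp
  unfold ww
  rw [e]
  have a1 := cnt_ge m1 _ h0
  have a2 := cnt_ge m2 _ h1
  have p1 : (0:ℝ) < m1 := by exact_mod_cast hm1
  have p2 : (0:ℝ) < m2 := by exact_mod_cast hm2
  have a3 : (m1:ℝ) / 2 * (m2 / 2) ≤ cnt m1 (k 0 - c 0) * cnt m2 (k 1 - c 1) :=
    mul_le_mul a1 a2 (by positivity) (by linarith)
  rw [inv_mul_eq_div, le_div_iff₀ (by positivity)]
  linarith

end H952Ent
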