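import Mathlib
open Real
open scoped BigOperators

/-! Lattice nets for the `l_1` ball in the Euclidean norm. -/

namespace H952Ent

theorem geo_Icc (t : ℝ) (r : ℕ) :
    (∑ u ∈ Finset.Icc (-(r:ℤ)) r, t ^ u.natAbs) * (1 - t) = 1 + t - 2 * t ^ (r + 1) := by
  induction r with
  | zero => simp; ring
  | succ r ih =>
    have e : Finset.Icc (-((r + 1 : ℕ):ℤ)) ((r + 1 : ℕ):ℤ)
        = insert (-((r + 1 : ℕ):ℤ)) (insert ((r + 1 : ℕ):ℤ) (Finset.Icc (-(r:ℤ)) r)) := by
      ext u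
      simp only [Finset.mem_Icc, Finset.mem_insert]
      push_cast
      omega
    rw [e, Finset.sum_insert, Finset.sum_insert, Int.natAbs_neg, Int.natAbs_natCast]
    · linear_combination ih
    · simp only [Finset.mem_Icc]
      push_cast
      omega
    · simp only [Finset.mem_Icc, Finset.mem_insert]
      push_cast
      omega

theorem lat_count (ι : Type) [Fintype ι] (r : ℕ) (t : ℝ) (h0 : 0 < t) (h1 : t < 1) :
    ∃ Z : Finset (ι → ℤ), (Z.card : ℝ) ≤ (t⁻¹) ^ r * ((1 + t) / (1 - t)) ^ Fintype.card ι ∧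
      ∀ z : ι → ℤ, ∑ i, (z i).natAbs ≤ r → z ∈ Z := by
  classical
  refine ⟨(Fintype.piFinset fun _ : ι => Finset.Icc (-(r:ℤ)) r).filter
    (fun z => ∑ i, (z i).natAbs ≤ r), ?_, ?_⟩
  · have a1 : (((Fintype.piFinset fun _ : ι => Finset.Icc (-(r:ℤ)) r).filter
        (fun z => ∑ i, (z i).natAbs ≤ r)).card : ℝ) ≤
        ∑ z ∈ (Fintype.piFinset fun _ : ι => Finset.Icc (-(r:ℤ)) r),
          (t⁻¹) ^ r * ∏ i, t ^ (z i).natAbs := by
      rw [Finset.card_eq_sum_ones, Nat.cast_sum, Finset.sum_filter]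
      refine Finset.sum_le_sum fun z _ => ?_
      split_ifs with h
      · rw [Finset.prod_pow_eq_pow_sum, Nat.cast_one, inv_pow, inv_mul_eq_div,
          le_div_iff₀ (by positivity), one_mul]
        exact pow_le_pow_of_le_one h0.le h1.le h
      · positivity
    refine a1.trans ?_
    rw [← Finset.mul_sum, ← Finset.prod_univ_sum (fun _ : ι => Finset.Icc (-(r:ℤ)) r)
      (fun _ u => t ^ u.natAbs), Finset.prod_const, Finset.card_univ]
    refine mul_le_mul_of_nonneg_left (pow_le_pow_left₀ (by positivity) ?_ _) (by positivity)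
    rw [le_div_iff₀ (by linarith), geo_Icc]
    have : 0 ≤ t ^ (r + 1) := by positivity
    linarith
  · intro z hz
    refine Finset.mem_filter.2 ⟨Fintype.mem_piFinset.2 fun i => ?_, hz⟩
    have : (z i).natAbs ≤ r :=
      (Finset.single_le_sum (f := fun i => (z i).natAbs) (fun _ _ => Nat.zero_le _)
        (Finset.mem_univ i)).trans hz
    rw [Finset.mem_Icc]
    omega

theorem round_zero (y : ℝ) : ∃ z : ℤ, ((z.natAbs : ℕ) : ℝ) ≤ |y| ∧ |y - z| ≤ |y| ∧ |y - z| ≤ 1 := by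
  rcases le_total 0 y with h | h
  · refine ⟨⌊y⌋, ?_, ?_, ?_⟩
    · rw [Nat.cast_natAbs, Int.cast_abs, abs_of_nonneg h,
        abs_of_nonneg (by exact_mod_cast Int.floor_nonneg.2 h)]
      exact Int.floor_le y
    · have := Int.floor_le y
      have h2 : (0:ℝ) ≤ ⌊y⌋ := by exact_mod_cast Int.floor_nonneg.2 h
      rw [abs_of_nonneg h, abs_of_nonneg (by linarith)]
      linarith
    · have := Int.floor_le y
      have := Int.lt_floor_add_one y
      rw [abs_of_nonneg (by linarith)]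
      linarith
  · have h2 : (⌈y⌉ : ℝ) ≤ 0 := by exact_mod_cast Int.ceil_nonpos.2 h
    have h3 := Int.le_ceil y
    have h4 := Int.ceil_lt_add_one y
    refine ⟨⌈y⌉, ?_, ?_, ?_⟩
    · rw [Nat.cast_natAbs, Int.cast_abs, abs_of_nonpos h, abs_of_nonpos h2]
      linarith
    · rw [abs_of_nonpos h, abs_of_nonpos (by linarith)]
      linarith
    · rw [abs_of_nonpos (by linarith)]
      linarith

theorem lat_net (ι : Type) [Fintype ι] (r : ℕ) (t : ℝ) (h0 : 0 < t) (h1 : t < 1) :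
    ∃ Z : Finset (ι → ℝ), (Z.card : ℝ) ≤ (t⁻¹) ^ r * ((1 + t) / (1 - t)) ^ Fintype.card ι ∧
      ∀ x : ι → ℝ, ∑ i, |x i| < 1 → ∃ z ∈ Z, ∑ i, (x i - z i) ^ 2 ≤ 1 / (r + 1) ∧
        ∑ i, (x i - z i) ^ 2 ≤ Fintype.card ι / (r + 1) ^ 2 := by
  classical
  obtain ⟨Z, hZ, hZ'⟩ := lat_count ι r t h0 h1
  have hr : (0:ℝ) < r + 1 := by positivity
  refine ⟨Z.image (fun z i => (z i : ℝ) / (r + 1)),
    le_trans (by exact_mod_cast Finset.card_image_le) hZ, ?_⟩
  intro x hx
  choose z hz1 hz2 hz3 using fun i => round_zero ((r + 1) * x i)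
  have a1 : ∑ i, (z i).natAbs ≤ r := by
    have b1 : ((∑ i, (z i).natAbs : ℕ) : ℝ) < r + 1 := by
      rw [Nat.cast_sum]
      refine (Finset.sum_le_sum fun i _ => hz1 i).trans_lt ?_
      simp only [abs_mul, abs_of_pos hr]
      rw [← Finset.mul_sum]
      nlinarith
    have b2 : ∑ i, (z i).natAbs < r + 1 := by exact_mod_cast b1
    omega
  have e : ∀ i, x i - (z i : ℝ) / (r + 1) = ((r + 1) * x i - z i) / (r + 1) := by
    intro i
    field_simp
  refine ⟨_, Finset.mem_image_of_mem _ (hZ' z a1), ?_, ?_⟩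
  · have b : ∀ i, (x i - (z i : ℝ) / (r + 1)) ^ 2 ≤ |x i| / (r + 1) := by
      intro i
      rw [e, div_pow, div_le_div_iff₀ (by positivity) hr, ← sq_abs]
      have c1 := hz2 i
      have c2 := hz3 i
      rw [abs_mul, abs_of_pos hr] at c1
      have c3 : |(r + 1) * x i - z i| ^ 2 ≤ (r + 1) * |x i| := by
        have := abs_nonneg ((r + 1) * x i - z i)
        nlinarith
      nlinarith
    refine (Finset.sum_le_sum fun i _ => b i).trans ?_
    rw [← Finset.sum_div]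
    exact div_le_div_of_nonneg_right hx.le hr.le
  · have b : ∀ i, (x i - (z i : ℝ) / (r + 1)) ^ 2 ≤ 1 / (r + 1) ^ 2 := by
      intro i
      rw [e, div_pow]
      refine div_le_div_of_nonneg_right ?_ (by positivity)
      rw [← sq_abs]
      have := abs_nonneg ((r + 1) * x i - z i)
      nlinarith [hz3 i]
    refine (Finset.sum_le_sum fun i _ => b i).trans (le_of_eq ?_)
    rw [Finset.sum_const, Finset.card_univ, nsmul_eq_mul]
    ring

/-- coarse nets -/
theorem lat_coarse (ι : Type) [Fintype ι] (ρ : ℝ) (h0 : 0 < ρ) (h1 : ρ ≤ Fintype.card ι) :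
    ∃ Z : Finset (ι → ℝ), (Z.card : ℝ) ≤ Real.exp (ρ * (Real.log (2 * Fintype.card ι / ρ) + 2)) ∧
      ∀ x : ι → ℝ, ∑ i, |x i| < 1 → ∃ z ∈ Z, ∑ i, (x i - z i) ^ 2 ≤ 1 / ρ := by
  set M : ℝ := (Fintype.card ι : ℝ) with hM
  have hM0 : 0 < M := h0.trans_le h1
  set t : ℝ := ρ / (2 * M) with ht
  have t0 : 0 < t := by positivity
  have t1 : t ≤ 1 / 2 := by
    rw [ht, div_le_div_iff₀ (by positivity) (by norm_num)]
    linarith
  obtain ⟨Z, hZ, hZ'⟩ := lat_net ι ⌊ρ⌋₊ t t0 (by linarith)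
  refine ⟨Z, hZ.trans ?_, ?_⟩
  · rw [mul_add, Real.exp_add]
    have e1 : t⁻¹ = 2 * M / ρ := by rw [ht, inv_div]
    have g1 : 1 ≤ 2 * M / ρ := by rw [le_div_iff₀ h0]; linarith
    refine mul_le_mul ?_ ?_ (div_nonneg (by linarith) (by linarith) |> (pow_nonneg · _))
      (Real.exp_pos _).le
    · rw [e1, ← Real.exp_log (show 0 < (2 * M / ρ) ^ ⌊ρ⌋₊ by positivity), Real.log_pow,
        Real.exp_le_exp]
      exact mul_le_mul_of_nonneg_right (Nat.floor_le h0.le) (Real.log_nonneg g1)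
    · have g2 : (1 + t) / (1 - t) ≤ Real.exp (4 * t) := by
        refine le_trans ?_ (Real.add_one_le_exp _)
        rw [div_le_iff₀ (by linarith)]
        nlinarith
      refine (pow_le_pow_left₀ (div_nonneg (by linarith) (by linarith)) g2 _).trans (le_of_eq ?_)
      rw [← Real.exp_nat_mul, ← hM, ht]
      congr 1
      field_simp
      ring
  · intro x hx
    obtain ⟨z, hz, h2, -⟩ := hZ' x hx
    refine ⟨z, hz, h2.trans ?_⟩
    exact one_div_le_one_div_of_le h0 (Nat.lt_floor_add_one ρ).le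

/-- fine nets -/
theorem lat_fine (ι : Type) [Fintype ι] (hι : 0 < Fintype.card ι) (J : ℝ) (hJ : 1 ≤ J) :
    ∃ Z : Finset (ι → ℝ), (Z.card : ℝ) ≤ Real.exp (Fintype.card ι * (1 + Real.log (4 * J))) ∧
      ∀ x : ι → ℝ, ∑ i, |x i| < 1 → ∃ z ∈ Z, ∑ i, (x i - z i) ^ 2 ≤ 1 / (Fintype.card ι * J ^ 2) := by
  set M : ℝ := (Fintype.card ι : ℝ) with hM
  have hM0 : 0 < M := by rw [hM]; exact_mod_cast hι
  set s : ℝ := 1 / (2 * J) with hs
  have s0 : 0 < s := by positivity
  have s1 : s ≤ 1 / 2 := one_div_le_one_div_of_le (by norm_num) (by linarith)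
  obtain ⟨Z, hZ, hZ'⟩ := lat_net ι ⌊M * J⌋₊ (1 - s) (by linarith) (by linarith)
  refine ⟨Z, hZ.trans ?_, ?_⟩
  · rw [mul_add, Real.exp_add, mul_one]
    refine mul_le_mul ?_ ?_ (div_nonneg (by linarith) (by linarith) |> (pow_nonneg · _))
      (Real.exp_pos _).le
    · have g2 : (1 - s)⁻¹ ≤ Real.exp (2 * s) := by
        refine le_trans ?_ (Real.add_one_le_exp _)
        rw [inv_le_iff_one_le_mul₀ (by linarith)]
        nlinarith
      refine (pow_le_pow_left₀ (inv_nonneg.2 (by linarith)) g2 _).trans ?_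
      rw [← Real.exp_nat_mul, Real.exp_le_exp]
      have g3 : (⌊M * J⌋₊ : ℝ) ≤ M * J := Nat.floor_le (by positivity)
      have g4 : M * J * (2 * s) = M := by rw [hs]; field_simp
      nlinarith
    · have g2 : (1 + (1 - s)) / (1 - (1 - s)) ≤ 4 * J := by
        rw [div_le_iff₀ (by linarith)]
        have : 4 * J * (1 - (1 - s)) = 2 := by rw [hs]; field_simp; ring
        linarith
      refine (pow_le_pow_left₀ (div_nonneg (by linarith) (by linarith)) g2 _).trans (le_of_eq ?_)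
      rw [hM, Real.exp_nat_mul, Real.exp_log (by linarith)]
  · intro x hx
    obtain ⟨z, hz, -, h2⟩ := hZ' x hx
    refine ⟨z, hz, h2.trans ?_⟩
    have g3 : M * J ≤ ⌊M * J⌋₊ + 1 := (Nat.lt_floor_add_one _).le
    rw [div_le_div_iff₀ (by positivity) (by positivity)]
    have : (M * J) ^ 2 ≤ ((⌊M * J⌋₊ : ℝ) + 1) ^ 2 := pow_le_pow_left₀ (by positivity) g3 2
    nlinarith

end H952Ent
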