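import Pool.Agent.H952Z.Ent.Frame
import Pool.Agent.H952Z.Ent.Lat
import Pool.Agent.MWidth.L_lower_cover1
open MeasureTheory Real
open scoped ENNReal BigOperators

/-! Nets in `L_p` for the `L_1` ball of a hyperbolic layer. -/

namespace H952Ent
open HypVol MWidth Sol_lower_cover1

theorem interp12 {X : Type} [MeasurableSpace X] (μ : Measure X) (g : X → ℂ)
    (hg : AEStronglyMeasurable g μ) (p : ℝ) (hp : 1 < p) (hp2 : p < 2) (Y B : ℝ) (hY : 0 < Y)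
    (hB : 1 ≤ B) (h2 : eLpNorm g 2 μ ≤ ENNReal.ofReal (Real.sqrt Y))
    (hq : eLpNorm g 1 μ ≤ ENNReal.ofReal B) :
    eLpNorm g (ENNReal.ofReal p) μ ≤ ENNReal.ofReal (B * Y ^ (1 - 1 / p)) := by
  have hp0 : 0 < p := by linarith
  set θ : ℝ := 2 - 2 / p with hθ
  have h0 : 0 < θ := by
    rw [hθ, sub_pos, div_lt_iff₀ hp0]; linarith
  have h1' : 0 < 1 - θ := by
    have : 1 < 2 / p := by rw [lt_div_iff₀ hp0]; linarith
    rw [hθ]; linarith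
  have hF : AEMeasurable (fun x => ‖g x‖ₑ) μ := hg.enorm
  have e2 : eLpNorm g 2 μ = (∫⁻ x, ‖g x‖ₑ ^ (2:ℝ) ∂μ) ^ (1 / (2:ℝ)) := by
    rw [eLpNorm_eq_lintegral_rpow_enorm_toReal two_ne_zero ENNReal.ofNat_ne_top]
    simp
  have eq' : eLpNorm g 1 μ = ∫⁻ x, ‖g x‖ₑ ∂μ := eLpNorm_one_eq_lintegral_enorm
  have ep : eLpNorm g (ENNReal.ofReal p) μ = (∫⁻ x, ‖g x‖ₑ ^ p ∂μ) ^ (1 / p) := by
    rw [eLpNorm_eq_lintegral_rpow_enorm_toReal (ENNReal.ofReal_pos.2 hp0).ne' ENNReal.ofReal_ne_top,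
      ENNReal.toReal_ofReal hp0.le]
  have ha : 0 < p * θ / 2 := by positivity
  have hb : 0 < p * (1 - θ) := by positivity
  have hab : p * θ / 2 + p * (1 - θ) = 1 := by
    rw [hθ]; field_simp; ring
  have key := ENNReal.lintegral_mul_norm_pow_le (μ := μ)
    (f := fun x => ‖g x‖ₑ ^ (2:ℝ)) (g := fun x => ‖g x‖ₑ)
    (hF.pow_const 2) hF ha.le hb.le hab
  have hint : (∫⁻ x, ‖g x‖ₑ ^ p ∂μ) ≤
      (∫⁻ x, ‖g x‖ₑ ^ (2:ℝ) ∂μ) ^ (p * θ / 2) * (∫⁻ x, ‖g x‖ₑ ∂μ) ^ (p * (1 - θ)) := by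
    refine le_trans (le_of_eq ?_) key
    refine lintegral_congr fun x => ?_
    rw [← ENNReal.rpow_mul, ← ENNReal.rpow_add_of_nonneg _ _ (by positivity) (by positivity)]
    congr 1
    ring
  have hA : 0 < Real.sqrt Y := Real.sqrt_pos.2 hY
  rw [ep]
  calc (∫⁻ x, ‖g x‖ₑ ^ p ∂μ) ^ (1 / p)
      ≤ ((∫⁻ x, ‖g x‖ₑ ^ (2:ℝ) ∂μ) ^ (p * θ / 2) *
        (∫⁻ x, ‖g x‖ₑ ∂μ) ^ (p * (1 - θ))) ^ (1 / p) :=
        ENNReal.rpow_le_rpow hint (by positivity)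
    _ = ((∫⁻ x, ‖g x‖ₑ ^ (2:ℝ) ∂μ) ^ (1 / (2:ℝ))) ^ θ * (∫⁻ x, ‖g x‖ₑ ∂μ) ^ (1 - θ) := by
        rw [ENNReal.mul_rpow_of_nonneg _ _ (by positivity), ← ENNReal.rpow_mul, ← ENNReal.rpow_mul,
          ← ENNReal.rpow_mul]
        congr 2
        · field_simp
        · field_simp
    _ ≤ (ENNReal.ofReal (Real.sqrt Y)) ^ θ * (ENNReal.ofReal B) ^ (1 - θ) := by
        rw [← e2, ← eq']
        exact mul_le_mul' (ENNReal.rpow_le_rpow h2 h0.le) (ENNReal.rpow_le_rpow hq h1'.le)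
    _ = ENNReal.ofReal ((Real.sqrt Y) ^ θ * B ^ (1 - θ)) := by
        rw [ENNReal.ofReal_rpow_of_pos hA, ENNReal.ofReal_rpow_of_pos (by linarith),
          ENNReal.ofReal_mul (by positivity)]
    _ ≤ ENNReal.ofReal (B * Y ^ (1 - 1 / p)) := by
        apply ENNReal.ofReal_le_ofReal
        rw [Real.sqrt_eq_rpow, ← Real.rpow_mul hY.le, mul_comm]
        have e : 1 / 2 * θ = 1 - 1 / p := by rw [hθ]; ring
        rw [e]
        refine mul_le_mul_of_nonneg_right ?_ (by positivity)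
        calc B ^ (1 - θ) ≤ B ^ (1:ℝ) := Real.rpow_le_rpow_of_exponent_le hB (by linarith)
          _ = B := Real.rpow_one B

theorem poly_integrable {n : ℕ} (a : (layer 2 n) × Fin 2 → ℝ) : Integrable (poly a) (TP 2) :=
  Sp_integrable (poly_Sp a Set.univ (fun _ _ => Set.mem_univ _))

theorem poly_L1 {n : ℕ} (a : (layer 2 n) × Fin 2 → ℝ) :
    eLpNorm (poly a) 1 (TP 2) = ENNReal.ofReal (∫ x, ‖poly a x‖ ∂(TP 2)) := by
  rw [eLpNorm_one_eq_lintegral_enorm, ofReal_integral_norm_eq_lintegral_enorm (poly_integrable a)]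

theorem poly_memLp {n : ℕ} (q : ℝ≥0∞) (a : (layer 2 n) × Fin 2 → ℝ) : MemLp (poly a) q (TP 2) := by
  have := TP_prob 2
  exact MemLp.of_bound (poly_cont_753 a).aestronglyMeasurable _ (ae_of_all _ (poly_bd_753 a))

theorem poly_L2 {n : ℕ} (a : (layer 2 n) × Fin 2 → ℝ) (Y : ℝ) (h : ∑ i, a i ^ 2 ≤ Y) :
    eLpNorm (poly a) 2 (TP 2) ≤ ENNReal.ofReal (Real.sqrt Y) := by
  rw [(poly_memLp 2 a).eLpNorm_eq_integral_rpow_norm two_ne_zero ENNReal.ofNat_ne_top]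
  apply ENNReal.ofReal_le_ofReal
  have e : ∫ x, ‖poly a x‖ ^ (2 : ℝ≥0∞).toReal ∂(TP 2) = ∑ i, a i ^ 2 := by
    rw [← poly_int_753]
    simp
  rw [e, Real.sqrt_eq_rpow]
  have e2 : (2 : ℝ≥0∞).toReal⁻¹ = 1 / 2 := by simp
  rw [e2]
  exact Real.rpow_le_rpow (by positivity) h (by norm_num)

theorem poly_sub' {n : ℕ} (a b : (layer 2 n) × Fin 2 → ℝ) (x : Fin 2 → ℝ) :
    poly (a - b) x = poly a x - poly b x := poly_sub_753 a b x

def B1 (n : ℕ) : Set ((layer 2 n) × Fin 2 → ℝ) := {a | ∫ x, ‖poly a x‖ ∂(TP 2) ≤ 1}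

noncomputable def MM (n : ℕ) : ℝ := 32 * (n + 1) * 2^n

theorem MM_pos (n : ℕ) : 0 < MM n := by unfold MM; positivity

theorem B1_sub {n : ℕ} {a y : (layer 2 n) × Fin 2 → ℝ} (ha : a ∈ B1 n) (hy : y ∈ B1 n) :
    eLpNorm (poly (a - y)) 1 (TP 2) ≤ ENNReal.ofReal 2 := by
  rw [poly_L1]
  apply ENNReal.ofReal_le_ofReal
  have h1 : ∫ x, ‖poly (a - y) x‖ ∂(TP 2) ≤ ∫ x, (‖poly a x‖ + ‖poly y x‖) ∂(TP 2) := by
    refine integral_mono (poly_integrable _).norm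
      ((poly_integrable a).norm.add (poly_integrable y).norm) fun x => ?_
    simp only [poly_sub']
    exact norm_sub_le _ _
  rw [integral_add (poly_integrable a).norm (poly_integrable y).norm] at h1
  have h2 : ∫ x, ‖poly a x‖ ∂(TP 2) ≤ 1 := ha
  have h3 : ∫ x, ‖poly y x‖ ∂(TP 2) ≤ 1 := hy
  linarith

theorem pull (n : ℕ) : ∃ (ι : Type) (_ : Fintype ι), (Fintype.card ι : ℝ) = MM n ∧
    (∀ a ∈ B1 n, ∑ i, a i ^ 2 ≤ 2000000 * MM n) ∧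
    ∀ (Z : Finset (ι → ℝ)) (η : ℝ), (∀ x : ι → ℝ, ∑ i, |x i| < 1 → ∃ z ∈ Z, ∑ i, (x i - z i) ^ 2 ≤ η) →
      ∃ F : Finset ((layer 2 n) × Fin 2 → ℝ), F.card ≤ Z.card ∧
        ∀ a ∈ B1 n, ∃ y ∈ F, y ∈ B1 n ∧ ∑ i, (a - y) i ^ 2 ≤ 2000000 * MM n * η := by
  classical
  obtain ⟨ι, inst, T, hc, hsub, hup, hlow⟩ := frame n
  set L : ℝ := 480 * 2^(n+2) * Real.sqrt (n + 1) with hL
  have hn1 : (0:ℝ) < n + 1 := by positivity
  have hL0 : 0 < L := by rw [hL]; positivity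
  have hQ : (0:ℝ) < 2^(n+2) := by positivity
  have hL2 : L ^ 2 = 480^2 * 2^(n+2) * (MM n / 8) := by
    rw [hL, mul_pow, Real.sq_sqrt hn1.le]
    unfold MM
    ring
  have hM := MM_pos n
  have half : ∀ a ∈ B1 n, ∑ i, |T a i| ≤ L / 2 := by
    intro a ha
    have h1 : ∫ x, ‖poly a x‖ ∂(TP 2) ≤ 1 := ha
    refine (hup a).trans ?_
    have : (0:ℝ) ≤ 240 * 2^(n+2) * Real.sqrt (n + 1) := by positivity
    rw [hL]
    nlinarith
  refine ⟨ι, inst, hc, ?_, ?_⟩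
  · intro a ha
    have h1 : ∑ i, T a i ^ 2 ≤ (∑ i, |T a i|) ^ 2 := by
      have := Finset.sum_sq_le_sq_sum_of_nonneg (s := Finset.univ) (f := fun i => |T a i|)
        (fun i _ => abs_nonneg _)
      simpa only [sq_abs] using this
    have h2 : (∑ i, |T a i|) ^ 2 ≤ (L / 2) ^ 2 :=
      pow_le_pow_left₀ (Finset.sum_nonneg fun i _ => abs_nonneg _) (half a ha) 2
    have h3 := (hlow a).trans (h1.trans h2)
    rw [div_pow, hL2] at h3
    have h4 : 2^(n+2) * ∑ i, a i ^ 2 ≤ 2^(n+2) * (2000000 * MM n) := by nlinarith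
    exact le_of_mul_le_mul_left h4 hQ
  · intro Z η hZ
    have hex : ∀ z : ι → ℝ, ∃ y : (layer 2 n) × Fin 2 → ℝ,
        (∃ a ∈ B1 n, ∑ i, (T a i / L - z i) ^ 2 ≤ η) →
          (y ∈ B1 n ∧ ∑ i, (T y i / L - z i) ^ 2 ≤ η) := by
      intro z
      by_cases h : ∃ a ∈ B1 n, ∑ i, (T a i / L - z i) ^ 2 ≤ η
      · obtain ⟨a, h1, h2⟩ := h
        exact ⟨a, fun _ => ⟨h1, h2⟩⟩
      · exact ⟨0, fun h' => absurd h' h⟩
    choose Y hY using hex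
    refine ⟨Z.image Y, Finset.card_image_le, fun a ha => ?_⟩
    have h1 : ∑ i, |T a i / L| < 1 := by
      simp only [abs_div, abs_of_pos hL0]
      rw [← Finset.sum_div, div_lt_one hL0]
      linarith [half a ha]
    obtain ⟨z, hz, h2⟩ := hZ _ h1
    obtain ⟨h3, h4⟩ := hY z ⟨a, ha, h2⟩
    refine ⟨Y z, Finset.mem_image_of_mem _ hz, h3, ?_⟩
    have h5 : ∑ i, T (a - Y z) i ^ 2 ≤ L ^ 2 * (4 * η) := by
      have e : ∀ i, T (a - Y z) i ^ 2 ≤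
          L ^ 2 * (2 * (T a i / L - z i) ^ 2 + 2 * (T (Y z) i / L - z i) ^ 2) := by
        intro i
        have e1 : T (a - Y z) i = L * ((T a i / L - z i) - (T (Y z) i / L - z i)) := by
          rw [hsub, Pi.sub_apply]
          field_simp
          ring
        rw [e1, mul_pow]
        refine mul_le_mul_of_nonneg_left ?_ (by positivity)
        nlinarith [sq_nonneg ((T a i / L - z i) + (T (Y z) i / L - z i))]
      refine (Finset.sum_le_sum fun i _ => e i).trans ?_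
      rw [← Finset.mul_sum, Finset.sum_add_distrib, ← Finset.mul_sum, ← Finset.mul_sum]
      refine mul_le_mul_of_nonneg_left ?_ (by positivity)
      linarith
    have hη : 0 ≤ η := le_trans (by positivity) h2
    have h6 := (hlow (a - Y z)).trans h5
    rw [hL2] at h6
    have h7 : 0 ≤ MM n * η := by positivity
    have h8 : 2^(n+2) * ∑ i, (a - Y z) i ^ 2 ≤ 2^(n+2) * (2000000 * MM n * η) := by nlinarith
    exact le_of_mul_le_mul_left h8 hQ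

theorem layer_triv (p : ℝ) (hp : 1 < p) (hp2 : p < 2) (n : ℕ) : ∀ a ∈ B1 n,
    eLpNorm (poly a) (ENNReal.ofReal p) (TP 2) ≤ ENNReal.ofReal ((2000000 * MM n) ^ (1 - 1 / p)) := by
  intro a ha
  obtain ⟨ι, inst, -, h, -⟩ := pull n
  have hM := MM_pos n
  have h1 : eLpNorm (poly a) 1 (TP 2) ≤ ENNReal.ofReal 1 := by
    rw [poly_L1]; exact ENNReal.ofReal_le_ofReal ha
  have := interp12 (TP 2) (poly a) (poly_cont_753 a).aestronglyMeasurable p hp hp2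
    (2000000 * MM n) 1 (by positivity) le_rfl (poly_L2 a _ (h a ha)) h1
  rwa [one_mul] at this

theorem layer_coarse (p : ℝ) (hp : 1 < p) (hp2 : p < 2) (n : ℕ) (ρ : ℝ) (h0 : 0 < ρ)
    (h1 : ρ ≤ MM n) : ∃ F : Finset ((layer 2 n) × Fin 2 → ℝ),
      (F.card : ℝ) ≤ Real.exp (ρ * (Real.log (2 * MM n / ρ) + 2)) ∧
      ∀ a ∈ B1 n, ∃ y ∈ F, eLpNorm (poly (a - y)) (ENNReal.ofReal p) (TP 2)
        ≤ ENNReal.ofReal (2 * (2000000 * (MM n / ρ)) ^ (1 - 1 / p)) := by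
  obtain ⟨ι, inst, hc, -, h⟩ := pull n
  have hM := MM_pos n
  obtain ⟨Z, hZ, hZ'⟩ := lat_coarse ι ρ h0 (by rw [hc]; exact h1)
  obtain ⟨F, hF, hF'⟩ := h Z _ hZ'
  rw [hc] at hZ
  refine ⟨F, le_trans (by exact_mod_cast hF) hZ, fun a ha => ?_⟩
  obtain ⟨y, hy, hy1, hy2⟩ := hF' a ha
  refine ⟨y, hy, interp12 (TP 2) _ (poly_cont_753 _).aestronglyMeasurable p hp hp2 _ 2
    (by positivity) (by norm_num) (poly_L2 _ _ (hy2.trans (le_of_eq ?_))) (B1_sub ha hy1)⟩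
  ring

theorem layer_fine (p : ℝ) (hp2 : p < 2) (n : ℕ) (J : ℝ) (hJ : 1 ≤ J) :
    ∃ F : Finset ((layer 2 n) × Fin 2 → ℝ),
      (F.card : ℝ) ≤ Real.exp (MM n * (1 + Real.log (4 * J))) ∧
      ∀ a ∈ B1 n, ∃ y ∈ F, eLpNorm (poly (a - y)) (ENNReal.ofReal p) (TP 2)
        ≤ ENNReal.ofReal (1500 / J) := by
  have := TP_prob 2
  obtain ⟨ι, inst, hc, -, h⟩ := pull n
  have hM := MM_pos n
  obtain ⟨Z, hZ, hZ'⟩ := lat_fine ι (by rw [← hc] at hM; exact_mod_cast hM) J hJ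
  obtain ⟨F, hF, hF'⟩ := h Z _ hZ'
  rw [hc] at hZ hF'
  refine ⟨F, le_trans (by exact_mod_cast hF) hZ, fun a ha => ?_⟩
  obtain ⟨y, hy, -, hy2⟩ := hF' a ha
  refine ⟨y, hy, ?_⟩
  have h2 : ENNReal.ofReal p ≤ 2 := by
    rw [← ENNReal.ofReal_ofNat]; exact ENNReal.ofReal_le_ofReal hp2.le
  refine (eLpNorm_le_eLpNorm_of_exponent_le h2 (poly_cont_753 _).aestronglyMeasurable).trans ?_
  have h3 : ∑ i, (a - y) i ^ 2 ≤ (1500 / J) ^ 2 := by
    refine hy2.trans ?_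
    have e : 2000000 * MM n * (1 / (MM n * J ^ 2)) = 2000000 / J ^ 2 := by field_simp
    rw [e, div_pow]
    exact div_le_div_of_nonneg_right (by norm_num) (by positivity)
  have h4 := poly_L2 _ _ h3
  rwa [Real.sqrt_sq (by positivity)] at h4

end H952Ent
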