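import Pool.Agent.H952Z.Ent.Defs
import Pool.Agent.H952Z.Ent.Layer
import Pool.Agent.MWidth.L_vol_net
import Pool.Agent.MWidth.L_poly_norm
import Pool.Agent.MWidth.L_k_num_low1
open MeasureTheory Real
open scoped ENNReal BigOperators

/-! The lower bound (volume argument in one layer). -/

namespace H952Ent
open HypVol MWidth Sol_lower_cover1

noncomputable def lm (a b : ℝ) (n : ℕ) : ℝ := (2:ℝ)^(-(a * n)) * (max (n:ℝ) 1)^b

theorem lm_pos (a b : ℝ) (n : ℕ) : 0 < lm a b n := by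
  unfold lm
  have : (0:ℝ) < max (n:ℝ) 1 := lt_of_lt_of_le one_pos (le_max_right _ _)
  positivity

theorem mem_W1 (a b : ℝ) {n : ℕ} (x : (layer 2 n) × Fin 2 → ℝ)
    (hx : eLpNorm (poly x) 1 (TP 2) ≤ 1) :
    (fun y => ((lm a b n : ℝ) : ℂ) * poly x y) ∈ W1 a b := by
  have hl := lm_pos a b n
  refine ⟨(poly_integrable x).const_mul _, fun m => ?_⟩
  by_cases hmn : m = n
  · subst hmn
    rw [lay_same_753]
    have e : (fun y => ((lm a b m : ℝ) : ℂ) * poly x y) = ((lm a b m : ℝ) : ℂ) • poly x := rfl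
    rw [e, eLpNorm_const_smul, ← ofReal_norm, Complex.norm_real, Real.norm_of_nonneg hl.le]
    exact (mul_le_mul_right hx _).trans (le_of_eq (mul_one _))
  · rw [lay_other_753 hmn]
    exact (eLpNorm_zero').le.trans (zero_le)

theorem lower_cover (p : ℝ) (hp : 1 ≤ p) (a b : ℝ) (n k : ℕ) (ε : ℝ) (hε : 0 < ε) (hk1 : 1 ≤ k)
    (hk : (k : ℝ) ≤ 2 * (layer 2 n).card) (c : Fin (2^k) → ((Fin 2 → ℝ) → ℂ))
    (hc : ∀ j, MemLp (c j) (ENNReal.ofReal p) (TP 2))
    (hcov : ∀ f ∈ W1 a b, ∃ j, eLpNorm (fun x => f x - c j x) (ENNReal.ofReal p) (TP 2)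
      ≤ ENNReal.ofReal ε) : lm a b n / 4 ≤ ε := by
  have hl := lm_pos a b n
  obtain ⟨h1, -, h3, -, -, -, h7, h8⟩ := poly_norm (d := 2) (n := n) 1 le_rfl
  rw [ENNReal.ofReal_one] at h1 h3 h7 h8
  set ν : ((layer 2 n) × Fin 2 → ℝ) → ℝ := fun x => (eLpNorm (poly x) 1 (TP 2)).toReal with hν
  set r : ℝ := 2 * ε / lm a b n with hr
  have hr0 : 0 < r := by positivity
  set D : ℕ := Fintype.card ((layer 2 n) × Fin 2) with hD
  have hkD : k ≤ D := by
    have : (D : ℝ) = 2 * (layer 2 n).card := by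
      rw [hD, Fintype.card_prod, Fintype.card_coe, Fintype.card_fin]
      push_cast
      ring
    rw [← this] at hk
    exact_mod_cast hk
  set A : Fin (2^k) → Set ((layer 2 n) × Fin 2 → ℝ) := fun j =>
    {x | eLpNorm (fun t => ((lm a b n : ℝ) : ℂ) * poly x t - c j t) (ENNReal.ofReal p) (TP 2)
      ≤ ENNReal.ofReal ε} with hA
  have hsub : {x | ν x ≤ 1} ⊆ ⋃ j, A j := by
    intro x hx
    have hx1 : eLpNorm (poly x) 1 (TP 2) ≤ 1 := by
      rw [← ENNReal.ofReal_toReal (h1 x)]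
      exact ENNReal.ofReal_le_one.2 hx
    obtain ⟨j, hj⟩ := hcov _ (mem_W1 a b x hx1)
    exact Set.mem_iUnion.2 ⟨j, hj⟩
  have hAj : ∀ j, volume (A j) ≤ ENNReal.ofReal (r ^ D) * volume {x | ν x ≤ 1} := by
    intro j
    rcases (A j).eq_empty_or_nonempty with h | ⟨y, hy⟩
    · rw [h, measure_empty]; exact zero_le
    · rw [← Sol_vol_net.vn_ball_vol ν h3 y r hr0]
      refine measure_mono fun x hx => ?_
      have h9 := diff_753 p hp (lm a b n) ε hl hε (c j) (hc j) x y hx hy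
      exact ENNReal.toReal_le_of_le_ofReal hr0.le h9
  have hv : volume {x | ν x ≤ 1} ≤ (ENNReal.ofReal (2^k * r ^ D)) * volume {x | ν x ≤ 1} := by
    refine (measure_mono hsub).trans ((measure_iUnion_fintype_le _ _).trans ?_)
    refine (Finset.sum_le_sum fun j _ => hAj j).trans (le_of_eq ?_)
    rw [Finset.sum_const, Finset.card_univ, Fintype.card_fin, nsmul_eq_mul, ← mul_assoc,
      ENNReal.ofReal_mul (by positivity), ← ENNReal.ofReal_natCast]
    push_cast
    rfl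
  have h10 : (1:ℝ≥0∞) ≤ ENNReal.ofReal (2^k * r ^ D) := by
    by_contra hcon
    have := ENNReal.mul_lt_mul_left h7 h8 (not_le.1 hcon)
    rw [one_mul] at this
    exact absurd hv (not_le.2 this)
  have h11 : (1:ℝ) ≤ 2^k * r ^ D := by
    rw [← ENNReal.ofReal_one] at h10
    exact (ENNReal.ofReal_le_ofReal_iff (by positivity)).1 h10
  have h12 : (1:ℝ) ≤ (2 * r) ^ D := by
    rw [mul_pow]
    exact h11.trans (mul_le_mul_of_nonneg_right (pow_le_pow_right₀ (by norm_num) hkD) (by positivity))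
  have h13 : 1 ≤ 2 * r := by
    by_contra hcon
    have := pow_lt_one₀ (by positivity : 0 ≤ 2 * r) (not_le.1 hcon) (by omega : D ≠ 0)
    linarith
  rw [hr, ← mul_div_assoc, le_div_iff₀ hl] at h13
  linarith

theorem lower_bound (p : ℝ) (hp : 1 ≤ p) (a b : ℝ) (ha : 0 < a) : ∃ c : ℝ, 0 < c ∧
    ∀ k : ℕ, 2 ≤ k → ENNReal.ofReal (c * (k:ℝ)^(-a) * (Real.log k)^(a + b))
      ≤ entP 2 p k (W1 a b) := by
  obtain ⟨c, hc, h2⟩ := k_num_low1 2 (by norm_num) a (b + 1/2) (1/4) ha (by norm_num)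
  refine ⟨c, hc, fun k hk => ?_⟩
  unfold entP
  refine le_iInf₂ (fun ε hε => ?_)
  by_cases htop : ε = ⊤
  · rw [htop]; exact le_top
  · obtain ⟨n, hn, hkn, hle⟩ := h2 k hk
    obtain ⟨hε0, cc, hcc, hcov⟩ := hε
    have hpos : 0 < ε.toReal := ENNReal.toReal_pos hε0.ne' htop
    have h3 := lower_cover p hp a b n k ε.toReal hpos (by omega) hkn cc hcc (by
      rw [ENNReal.ofReal_toReal htop]; exact hcov)
    apply ENNReal.ofReal_le_of_le_toReal
    have e : (((2:ℕ):ℝ)-1) * a + (b + 1/2) - 1/2 = a + b := by push_cast; ring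
    have e2 : b + 1/2 - 1/2 = b := by ring
    rw [e, e2] at hle
    refine hle.trans (le_trans (le_of_eq ?_) h3)
    unfold lm
    rw [max_eq_left (by exact_mod_cast hn)]
    ring

end H952Ent
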