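import Pool.Agent.MWidth.L_W_tail
open MeasureTheory Real
open scoped ENNReal BigOperators ComplexConjugate

/-! Trigonometric polynomials on the two-torus with prescribed spectrum; Riesz products. -/

namespace H952Ent
open HypVol MWidth

noncomputable def ee (k : Fin 2 → ℤ) (x : Fin 2 → ℝ) : ℂ :=
  Complex.exp (Complex.I * ((∑ j, (k j : ℝ) * x j : ℝ) : ℂ))

theorem ee_add (k l : Fin 2 → ℤ) (x : Fin 2 → ℝ) : ee (k + l) x = ee k x * ee l x := by
  unfold ee
  rw [← Complex.exp_add]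
  congr 1
  simp only [Fin.sum_univ_two, Pi.add_apply]
  push_cast
  ring

theorem ee_norm (k : Fin 2 → ℤ) (x : Fin 2 → ℝ) : ‖ee k x‖ = 1 := by
  unfold ee
  rw [mul_comm, Complex.norm_exp_ofReal_mul_I]

theorem ee_zero (x : Fin 2 → ℝ) : ee 0 x = 1 := by
  unfold ee
  simp

theorem ee_conj (k : Fin 2 → ℤ) (x : Fin 2 → ℝ) : conj (ee k x) = ee (-k) x := by
  unfold ee
  rw [← Complex.exp_conj]
  congr 1
  simp only [map_mul, Complex.conj_I, Complex.conj_ofReal, Fin.sum_univ_two, Pi.neg_apply]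
  push_cast
  ring

theorem ee_sub_arg (k : Fin 2 → ℤ) (y x : Fin 2 → ℝ) : ee k (y - x) = ee k y * ee (-k) x := by
  unfold ee
  rw [← Complex.exp_add]
  congr 1
  simp only [Fin.sum_univ_two, Pi.sub_apply, Pi.neg_apply]
  push_cast
  ring

theorem ee_cont (k : Fin 2 → ℤ) : Continuous (ee k) := by
  unfold ee
  fun_prop

theorem ee_int (k : Fin 2 → ℤ) : ∫ x, ee k x ∂(TP 2) = if k = 0 then 1 else 0 :=
  Sol_W_tail.wt_orth 2 k

theorem ee_integrable (k : Fin 2 → ℤ) : Integrable (ee k) (TP 2) := by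
  haveI := TP_prob 2
  exact Integrable.of_bound (ee_cont k).aestronglyMeasurable 1
    (ae_of_all _ (fun x => (ee_norm k x).le))

/-- trigonometric polynomials with spectrum in `A` -/
noncomputable def Sp (A : Set (Fin 2 → ℤ)) : Submodule ℂ ((Fin 2 → ℝ) → ℂ) :=
  Submodule.span ℂ (ee '' A)

theorem ee_mem {A : Set (Fin 2 → ℤ)} {k : Fin 2 → ℤ} (h : k ∈ A) : ee k ∈ Sp A :=
  Submodule.subset_span ⟨k, h, rfl⟩

theorem Sp_mono {A B : Set (Fin 2 → ℤ)} (h : A ⊆ B) {f : (Fin 2 → ℝ) → ℂ} (hf : f ∈ Sp A) :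
    f ∈ Sp B := Submodule.span_mono (Set.image_mono h) hf

theorem Sp_mul {A B C : Set (Fin 2 → ℤ)} (h : ∀ k ∈ A, ∀ l ∈ B, k + l ∈ C)
    {f g : (Fin 2 → ℝ) → ℂ} (hf : f ∈ Sp A) (hg : g ∈ Sp B) : f * g ∈ Sp C := by
  induction hf using Submodule.span_induction with
  | mem f hf =>
    obtain ⟨k, hk, rfl⟩ := hf
    induction hg using Submodule.span_induction with
    | mem g hg =>
      obtain ⟨l, hl, rfl⟩ := hg
      have : ee k * ee l = ee (k + l) := by funext x; rw [ee_add]; rfl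
      rw [this]
      exact ee_mem (h k hk l hl)
    | zero => rw [mul_zero]; exact Submodule.zero_mem _
    | add g1 g2 _ _ h1 h2 => rw [mul_add]; exact Submodule.add_mem _ h1 h2
    | smul c g _ h1 => rw [mul_smul_comm]; exact Submodule.smul_mem _ c h1
  | zero => rw [zero_mul]; exact Submodule.zero_mem _
  | add f1 f2 _ _ h1 h2 => rw [add_mul]; exact Submodule.add_mem _ h1 h2
  | smul c f _ h1 => rw [smul_mul_assoc]; exact Submodule.smul_mem _ c h1

theorem Sp_conj {A : Set (Fin 2 → ℤ)} (h : ∀ k ∈ A, -k ∈ A) {f : (Fin 2 → ℝ) → ℂ}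
    (hf : f ∈ Sp A) : (fun x => conj (f x)) ∈ Sp A := by
  induction hf using Submodule.span_induction with
  | mem f hf =>
    obtain ⟨k, hk, rfl⟩ := hf
    have : (fun x => conj (ee k x)) = ee (-k) := by funext x; rw [ee_conj]
    rw [this]
    exact ee_mem (h k hk)
  | zero =>
    have : (fun x => conj ((0 : (Fin 2 → ℝ) → ℂ) x)) = 0 := by funext x; simp
    rw [this]; exact Submodule.zero_mem _
  | add f1 f2 _ _ h1 h2 =>
    have : (fun x => conj ((f1 + f2) x)) = (fun x => conj (f1 x)) + fun x => conj (f2 x) := by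
      funext x; simp
    rw [this]; exact Submodule.add_mem _ h1 h2
  | smul c f _ h1 =>
    have : (fun x => conj ((c • f) x)) = (conj c) • fun x => conj (f x) := by
      funext x; simp
    rw [this]; exact Submodule.smul_mem _ _ h1

theorem Sp_integrable {A : Set (Fin 2 → ℤ)} {f : (Fin 2 → ℝ) → ℂ} (hf : f ∈ Sp A) :
    Integrable f (TP 2) := by
  induction hf using Submodule.span_induction with
  | mem f hf => obtain ⟨k, _, rfl⟩ := hf; exact ee_integrable k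
  | zero => exact integrable_zero _ _ _
  | add f1 f2 _ _ h1 h2 => exact h1.add h2
  | smul c f _ h1 => exact h1.smul c

theorem Sp_zero {A : Set (Fin 2 → ℤ)} (h : (0 : Fin 2 → ℤ) ∉ A) {f : (Fin 2 → ℝ) → ℂ}
    (hf : f ∈ Sp A) : ∫ x, f x ∂(TP 2) = 0 := by
  induction hf using Submodule.span_induction with
  | mem f hf =>
    obtain ⟨k, hk, rfl⟩ := hf
    rw [ee_int, if_neg]
    rintro rfl
    exact h hk
  | zero => simp
  | add f1 f2 a1 a2 h1 h2 =>
    simp only [Pi.add_apply]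
    rw [integral_add (Sp_integrable a1) (Sp_integrable a2), h1, h2, add_zero]
  | smul c f _ h1 =>
    simp only [Pi.smul_apply]
    rw [integral_smul, h1, smul_zero]

theorem Sp_mul_integrable {A B : Set (Fin 2 → ℤ)} {f g : (Fin 2 → ℝ) → ℂ} (hf : f ∈ Sp A)
    (hg : g ∈ Sp B) : Integrable (fun x => f x * g x) (TP 2) :=
  Sp_integrable (A := Set.univ) (Sp_mul (fun _ _ _ _ => Set.mem_univ _) hf hg)

/-- enlarged dyadic block -/
def Box (n s : ℕ) : Set (Fin 2 → ℤ) :=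
  {k | (2:ℤ)^s < 4 * |k 0| ∧ |k 0| < 2 * 2^s ∧ (2:ℤ)^(n - s) < 4 * |k 1| ∧ |k 1| < 2 * 2^(n - s)}

def Bt (n t : ℕ) : Set (Fin 2 → ℤ) :=
  {k | 32 * |k 0| < (2:ℤ)^t ∧ (2:ℤ)^(n + 7 - t) ≤ 8 * |k 1|}

def Far (n : ℕ) : Set (Fin 2 → ℤ) := {k | (2:ℤ)^n ≤ |k 0| * |k 1|}

def Lay (n : ℕ) : Set (Fin 2 → ℤ) := {k | k ≠ 0 ∧ |k 0| * |k 1| < (2:ℤ)^n}

theorem Box_neg (n s : ℕ) : ∀ k ∈ Box n s, -k ∈ Box n s := by
  intro k hk
  simpa [Box] using hk

theorem Bt_mono {n t t' : ℕ} (h : t ≤ t') : Bt n t ⊆ Bt n t' := by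
  intro k hk
  obtain ⟨h1, h2⟩ := hk
  refine ⟨h1.trans_le (pow_le_pow_right₀ (by norm_num) h), le_trans ?_ h2⟩
  exact pow_le_pow_right₀ (by norm_num) (by omega)

theorem riesz_spec (n : ℕ) (v : ℕ → (Fin 2 → ℝ) → ℂ) (I : Finset ℕ) :
    (∀ s ∈ I, s ≤ n) → (∀ s ∈ I, ∀ t ∈ I, s < t → s + 7 ≤ t) → (∀ s ∈ I, v s ∈ Sp (Box n s)) →
    (∀ t, (∀ s ∈ I, s + 7 ≤ t) → t ≤ n + 7 → (∏ s ∈ I, (1 + v s)) - 1 ∈ Sp (Bt n t)) ∧
      (∏ s ∈ I, (1 + v s)) - 1 - ∑ s ∈ I, v s ∈ Sp (Far n) := by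
  induction I using Finset.induction_on_max with
  | empty =>
    intro _ _ _
    simp
  | insert a I ha ih =>
    intro h1 h2 h3
    have haI : a ∉ I := fun h => lt_irrefl _ (ha a h)
    obtain ⟨i1, i2⟩ := ih (fun s hs => h1 s (Finset.mem_insert_of_mem hs))
      (fun s hs t ht => h2 s (Finset.mem_insert_of_mem hs) t (Finset.mem_insert_of_mem ht))
      (fun s hs => h3 s (Finset.mem_insert_of_mem hs))
    have han : a ≤ n := h1 a (Finset.mem_insert_self _ _)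
    have hva := h3 a (Finset.mem_insert_self _ _)
    have hP : (∏ s ∈ I, (1 + v s)) - 1 ∈ Sp (Bt n a) :=
      i1 a (fun s hs => h2 s (Finset.mem_insert_of_mem hs) a (Finset.mem_insert_self _ _) (ha s hs))
        (by omega)
    have e7 : (2:ℤ)^(n + 7 - a) = 128 * 2^(n - a) := by
      rw [show n + 7 - a = 7 + (n - a) by omega, pow_add]; norm_num
    have e7' : (2:ℤ)^(a + 7) = 128 * 2^a := by rw [pow_add]; ring
    have e7'' : n + 7 - (a + 7) = n - a := by omega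
    have eXY : (2:ℤ)^n = 2^a * 2^(n - a) := by rw [← pow_add]; congr 1; omega
    have hX : (0:ℤ) < 2^a := by positivity
    have hY : (0:ℤ) < 2^(n - a) := by positivity
    rw [Finset.prod_insert haI, Finset.sum_insert haI]
    constructor
    · intro t ht htn
      have hat : a + 7 ≤ t := ht a (Finset.mem_insert_self _ _)
      refine Sp_mono (Bt_mono hat) ?_
      have e : (1 + v a) * ∏ s ∈ I, (1 + v s) - 1
          = ((∏ s ∈ I, (1 + v s)) - 1) + v a + v a * ((∏ s ∈ I, (1 + v s)) - 1) := by ring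
      rw [e]
      refine Submodule.add_mem _ (Submodule.add_mem _ (Sp_mono (Bt_mono (by omega)) hP)
        (Sp_mono ?_ hva)) (Sp_mul ?_ hva hP)
      · intro k hk
        obtain ⟨k1, k2, k3, k4⟩ := hk
        refine ⟨?_, ?_⟩
        · rw [e7']; linarith
        · rw [e7'']; linarith [abs_nonneg (k 1)]
      · intro k hk l hl
        obtain ⟨k1, k2, k3, k4⟩ := hk
        obtain ⟨l1, l2⟩ := hl
        rw [e7] at l2
        have a0 := abs_add_le (k 0) (l 0)
        have a1 : |l 1| ≤ |k 1 + l 1| + |k 1| := by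
          have := abs_sub (k 1 + l 1) (k 1)
          rwa [add_sub_cancel_left] at this
        refine ⟨?_, ?_⟩
        · rw [e7']; simp only [Pi.add_apply]; linarith
        · rw [e7'']; simp only [Pi.add_apply]; linarith
    · have e : (1 + v a) * ∏ s ∈ I, (1 + v s) - 1 - (v a + ∑ s ∈ I, v s)
          = ((∏ s ∈ I, (1 + v s)) - 1 - ∑ s ∈ I, v s) + v a * ((∏ s ∈ I, (1 + v s)) - 1) := by ring
      rw [e]
      refine Submodule.add_mem _ i2 (Sp_mul ?_ hva hP)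
      intro k hk l hl
      obtain ⟨k1, k2, k3, k4⟩ := hk
      obtain ⟨l1, l2⟩ := hl
      rw [e7] at l2
      have a0 : |k 0| ≤ |k 0 + l 0| + |l 0| := by
        have := abs_sub (k 0 + l 0) (l 0)
        rwa [add_sub_cancel_right] at this
      have a1 : |l 1| ≤ |k 1 + l 1| + |k 1| := by
        have := abs_sub (k 1 + l 1) (k 1)
        rwa [add_sub_cancel_left] at this
      have b0 : (2:ℤ)^a ≤ 8 * |k 0 + l 0| := by linarith
      have b1 : 8 * (2:ℤ)^(n - a) ≤ |k 1 + l 1| := by linarith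
      show (2:ℤ)^n ≤ |k 0 + l 0| * |k 1 + l 1|
      rw [eXY]
      nlinarith [mul_le_mul b0 b1 (by positivity) (by positivity)]

/-- the Riesz product bound for real-valued summands -/
theorem riesz_real (n : ℕ) (v : ℕ → (Fin 2 → ℝ) → ℝ) (I : Finset ℕ) (h1 : ∀ s ∈ I, s ≤ n)
    (h2 : ∀ s ∈ I, ∀ t ∈ I, s < t → s + 7 ≤ t)
    (h3 : ∀ s ∈ I, (fun x => (v s x : ℂ)) ∈ Sp (Box n s)) (h4 : ∀ x, ∑ s ∈ I, v s x ^ 2 ≤ 1)
    {f : (Fin 2 → ℝ) → ℂ} (hf : f ∈ Sp (Lay n)) :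
    ‖∫ x, f x * ∑ s ∈ I, (v s x : ℂ) ∂(TP 2)‖ ≤ 2 * ∫ x, ‖f x‖ ∂(TP 2) := by
  set w : ℕ → (Fin 2 → ℝ) → ℂ := fun s => Complex.I • fun x => (v s x : ℂ) with hw
  have hw3 : ∀ s ∈ I, w s ∈ Sp (Box n s) := fun s hs => Submodule.smul_mem _ _ (h3 s hs)
  obtain ⟨-, hR⟩ := riesz_spec n w I h1 h2 hw3
  set P : (Fin 2 → ℝ) → ℂ := ∏ s ∈ I, (1 + w s) with hP
  have hS : (∑ s ∈ I, w s) ∈ Sp Set.univ :=
    Submodule.sum_mem _ (fun s hs => Sp_mono (Set.subset_univ _) (hw3 s hs))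
  have z1 : ∫ x, f x ∂(TP 2) = 0 := Sp_zero (fun h => h.1 rfl) hf
  have z2 : ∫ x, f x * (P - 1 - ∑ s ∈ I, w s) x ∂(TP 2) = 0 := by
    refine Sp_zero (A := {k | k ≠ 0}) (fun h => h rfl) (Sp_mul ?_ hf hR)
    intro k hk l hl hkl
    have e : l = -k := eq_neg_of_add_eq_zero_right hkl
    have h5 : (2:ℤ)^n ≤ |l 0| * |l 1| := hl
    rw [e] at h5
    simp only [Pi.neg_apply, abs_neg] at h5
    exact absurd hk.2 (not_lt.2 h5)
  have hPb : ∀ x, ‖P x‖ ≤ 2 := by
    intro x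
    have e1 : ‖P x‖ ^ 2 = ∏ s ∈ I, (1 + v s x ^ 2) := by
      rw [hP, Finset.prod_apply, norm_prod, ← Finset.prod_pow]
      refine Finset.prod_congr rfl fun s _ => ?_
      have : (1 + w s) x = ((1:ℝ):ℂ) + (v s x : ℂ) * Complex.I := by
        simp [hw, mul_comm]
      rw [this, Complex.sq_norm, Complex.normSq_add_mul_I]
      ring
    have e2 : ∏ s ∈ I, (1 + v s x ^ 2) ≤ Real.exp (∑ s ∈ I, v s x ^ 2) := by
      rw [Real.exp_sum]
      refine Finset.prod_le_prod (fun s _ => by positivity) (fun s _ => ?_)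
      linarith [Real.add_one_le_exp (v s x ^ 2)]
    have e3 : Real.exp (∑ s ∈ I, v s x ^ 2) ≤ 4 :=
      (Real.exp_le_exp.2 (h4 x)).trans (by linarith [Real.exp_one_lt_d9])
    have e4 : ‖P x‖ ^ 2 ≤ 2 ^ 2 := by linarith
    exact abs_le_of_sq_le_sq' e4 (by norm_num) |>.2
  have i1 := Sp_integrable hf
  have i2 := Sp_mul_integrable hf hS
  have i3 := Sp_mul_integrable hf hR
  have key : ∫ x, f x * P x ∂(TP 2) = Complex.I * ∫ x, f x * ∑ s ∈ I, (v s x : ℂ) ∂(TP 2) := by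
    have e : ∀ x, f x * P x = (f x + f x * (∑ s ∈ I, w s) x) + f x * (P - 1 - ∑ s ∈ I, w s) x := by
      intro x
      simp only [Pi.sub_apply, Pi.one_apply]
      ring
    have i4 : Integrable (fun x => f x + f x * (∑ s ∈ I, w s) x) (TP 2) := i1.add i2
    simp only [e]
    rw [integral_add i4 i3, integral_add i1 i2, z1, z2, zero_add, add_zero, ← integral_const_mul]
    congr 1
    funext x
    simp only [hw, Finset.sum_apply, Pi.smul_apply, smul_eq_mul, ← Finset.mul_sum]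
    ring
  have e5 : ‖∫ x, f x * ∑ s ∈ I, (v s x : ℂ) ∂(TP 2)‖ = ‖∫ x, f x * P x ∂(TP 2)‖ := by
    rw [key, norm_mul, Complex.norm_I, one_mul]
  rw [e5, ← integral_const_mul]
  refine norm_integral_le_of_norm_le (i1.norm.const_mul 2) (ae_of_all _ fun x => ?_)
  rw [norm_mul, mul_comm]
  exact mul_le_mul_of_nonneg_right (hPb x) (norm_nonneg _)

/-- the Riesz product bound for complex summands bounded by `M` -/
theorem riesz_cx (n : ℕ) (hn : 1 ≤ n) (t : ℕ → (Fin 2 → ℝ) → ℂ) (I : Finset ℕ)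
    (h1 : ∀ s ∈ I, s < n) (h2 : ∀ s ∈ I, ∀ t ∈ I, s < t → s + 7 ≤ t)
    (h3 : ∀ s ∈ I, t s ∈ Sp (Box n s)) (M : ℝ) (hM : 0 < M) (h4 : ∀ s ∈ I, ∀ x, ‖t s x‖ ≤ M)
    {f : (Fin 2 → ℝ) → ℂ} (hf : f ∈ Sp (Lay n)) :
    ‖∫ x, f x * ∑ s ∈ I, t s x ∂(TP 2)‖ ≤ 4 * M * Real.sqrt n * ∫ x, ‖f x‖ ∂(TP 2) := by
  have hn0 : (0:ℝ) < n := by exact_mod_cast hn
  have hq : 0 < Real.sqrt n := Real.sqrt_pos.2 hn0
  set c : ℝ := M * Real.sqrt n with hc
  have hc0 : 0 < c := by positivity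
  have hcard : (I.card : ℝ) ≤ n := by
    have : I ⊆ Finset.range n := fun s hs => Finset.mem_range.2 (h1 s hs)
    have := Finset.card_le_card this
    rw [Finset.card_range] at this
    exact_mod_cast this
  have hsq : ∀ (u : ℕ → (Fin 2 → ℝ) → ℝ), (∀ s ∈ I, ∀ x, |u s x| ≤ M) →
      ∀ x, ∑ s ∈ I, (u s x / c) ^ 2 ≤ 1 := by
    intro u hu x
    have : ∀ s ∈ I, (u s x / c) ^ 2 ≤ 1 / n := by
      intro s hs
      rw [div_pow, hc, mul_pow, Real.sq_sqrt hn0.le, div_le_div_iff₀ (by positivity) hn0]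
      have := sq_le_sq' (abs_le.1 (hu s hs x)).1 (abs_le.1 (hu s hs x)).2
      nlinarith
    refine (Finset.sum_le_sum this).trans ?_
    rw [Finset.sum_const, nsmul_eq_mul, mul_one_div, div_le_one hn0]
    exact hcard
  have hre : ∀ s ∈ I, (fun x => (((t s x).re / c : ℝ) : ℂ)) ∈ Sp (Box n s) := by
    intro s hs
    have e : (fun x => (((t s x).re / c : ℝ) : ℂ))
        = ((2 * (c:ℂ))⁻¹) • (t s + fun x => conj (t s x)) := by
      funext x
      simp only [Pi.smul_apply, Pi.add_apply, smul_eq_mul, Complex.add_conj]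
      have : (c:ℂ) ≠ 0 := by exact_mod_cast hc0.ne'
      push_cast
      field_simp
    rw [e]
    exact Submodule.smul_mem _ _ (Submodule.add_mem _ (h3 s hs) (Sp_conj (Box_neg n s) (h3 s hs)))
  have him : ∀ s ∈ I, (fun x => (((t s x).im / c : ℝ) : ℂ)) ∈ Sp (Box n s) := by
    intro s hs
    have e : (fun x => (((t s x).im / c : ℝ) : ℂ))
        = ((2 * (c:ℂ) * Complex.I)⁻¹) • (t s - fun x => conj (t s x)) := by
      funext x
      simp only [Pi.smul_apply, Pi.sub_apply, smul_eq_mul, Complex.sub_conj]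
      have : (c:ℂ) ≠ 0 := by exact_mod_cast hc0.ne'
      have := Complex.I_ne_zero
      push_cast
      field_simp
    rw [e]
    exact Submodule.smul_mem _ _ (Submodule.sub_mem _ (h3 s hs) (Sp_conj (Box_neg n s) (h3 s hs)))
  have r1 := riesz_real n (fun s x => (t s x).re / c) I (fun s hs => (h1 s hs).le) h2 hre
    (hsq (fun s x => (t s x).re) (fun s hs x => (Complex.abs_re_le_norm _).trans (h4 s hs x))) hf
  have r2 := riesz_real n (fun s x => (t s x).im / c) I (fun s hs => (h1 s hs).le) h2 him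
    (hsq (fun s x => (t s x).im) (fun s hs x => (Complex.abs_im_le_norm _).trans (h4 s hs x))) hf
  have s1 : (∑ s ∈ I, fun x => (((t s x).re / c : ℝ) : ℂ)) ∈ Sp Set.univ :=
    Submodule.sum_mem _ (fun s hs => Sp_mono (Set.subset_univ _) (hre s hs))
  have s2 : (∑ s ∈ I, fun x => (((t s x).im / c : ℝ) : ℂ)) ∈ Sp Set.univ :=
    Submodule.sum_mem _ (fun s hs => Sp_mono (Set.subset_univ _) (him s hs))
  have i1 := Sp_mul_integrable hf s1
  have i2 := Sp_mul_integrable hf s2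
  simp only [Finset.sum_apply] at i1 i2
  have key : ∫ x, f x * ∑ s ∈ I, t s x ∂(TP 2) =
      (c:ℂ) * ∫ x, f x * ∑ s ∈ I, (((t s x).re / c : ℝ) : ℂ) ∂(TP 2) +
      (c:ℂ) * Complex.I * ∫ x, f x * ∑ s ∈ I, (((t s x).im / c : ℝ) : ℂ) ∂(TP 2) := by
    rw [← integral_const_mul, ← integral_const_mul,
      ← integral_add (i1.const_mul _) (i2.const_mul _)]
    congr 1
    funext x
    have hcc : (c:ℂ) ≠ 0 := by exact_mod_cast hc0.ne'
    have e : ∑ s ∈ I, t s x = (c:ℂ) * ∑ s ∈ I, (((t s x).re / c : ℝ) : ℂ) +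
        (c:ℂ) * Complex.I * ∑ s ∈ I, (((t s x).im / c : ℝ) : ℂ) := by
      rw [Finset.mul_sum, Finset.mul_sum, ← Finset.sum_add_distrib]
      refine Finset.sum_congr rfl fun s _ => ?_
      conv_lhs => rw [← Complex.re_add_im (t s x)]
      push_cast
      field_simp
    rw [e]
    ring
  rw [key]
  refine (norm_add_le _ _).trans ?_
  rw [norm_mul, norm_mul, norm_mul, Complex.norm_I, mul_one, Complex.norm_real, Real.norm_eq_abs,
    abs_of_pos hc0]
  have e : 4 * M * Real.sqrt n * ∫ x, ‖f x‖ ∂(TP 2) =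
      c * (2 * ∫ x, ‖f x‖ ∂(TP 2)) + c * (2 * ∫ x, ‖f x‖ ∂(TP 2)) := by rw [hc]; ring
  rw [e]
  exact add_le_add (mul_le_mul_of_nonneg_left r1 hc0.le) (mul_le_mul_of_nonneg_left r2 hc0.le)

end H952Ent
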