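import Pool.Agent.MWidth.L_W_tail
open MeasureTheory Real Filter Topology
open scoped ENNReal BigOperators

/-! Uniqueness of Fourier coefficients for integrable functions; convergence of the layers. -/

namespace H952Ent
open HypVol MWidth Sol_fc_unique Sol_W_tail

theorem uniq_torus {d : ℕ} (g : UnitAddTorus (Fin d) → ℂ)
    (hg : Integrable g (Measure.pi fun _ : Fin d => (AddCircle.haarAddCircle : Measure UnitAddCircle)))
    (h : ∀ n : Fin d → ℤ, ∫ t, UnitAddTorus.mFourier (-n) t * g t
      ∂(Measure.pi fun _ : Fin d => (AddCircle.haarAddCircle : Measure UnitAddCircle)) = 0) :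
    g =ᵐ[Measure.pi fun _ : Fin d => (AddCircle.haarAddCircle : Measure UnitAddCircle)] 0 := by
  set μ := (Measure.pi fun _ : Fin d => (AddCircle.haarAddCircle : Measure UnitAddCircle)) with hμ
  have hi : ∀ φ : C(UnitAddTorus (Fin d), ℂ), Integrable (fun t => φ t * g t) μ := fun φ =>
    hg.bdd_mul (c := ‖φ‖) φ.continuous.aestronglyMeasurable
      (ae_of_all _ fun t => φ.norm_coe_le_norm t)
  let L0 : C(UnitAddTorus (Fin d), ℂ) →ₗ[ℂ] ℂ :=
    { toFun := fun φ => ∫ t, φ t * g t ∂μ
      map_add' := fun φ ψ => by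
        rw [← integral_add (hi φ) (hi ψ)]
        congr 1
        funext t
        simp only [ContinuousMap.add_apply]
        ring
      map_smul' := fun c φ => by
        simp only [ContinuousMap.smul_apply, smul_eq_mul, RingHom.id_apply, mul_assoc]
        rw [integral_const_mul] }
  let L : C(UnitAddTorus (Fin d), ℂ) →L[ℂ] ℂ := L0.mkContinuous (∫ t, ‖g t‖ ∂μ) (fun φ => by
    rw [mul_comm, ← integral_const_mul]
    refine norm_integral_le_of_norm_le (hg.norm.const_mul _) (ae_of_all _ fun t => ?_)
    rw [norm_mul]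
    exact mul_le_mul_of_nonneg_right (φ.norm_coe_le_norm t) (norm_nonneg _))
  have hL : ∀ φ : C(UnitAddTorus (Fin d), ℂ), ∫ t, φ t * g t ∂μ = 0 := by
    intro φ
    have h1 : Submodule.span ℂ (Set.range (UnitAddTorus.mFourier (d := Fin d))) ≤ L.ker := by
      rw [Submodule.span_le]
      rintro _ ⟨n, rfl⟩
      have := h (-n)
      rw [neg_neg] at this
      exact this
    have h2 := Submodule.topologicalClosure_minimal _ h1 L.isClosed_ker
    rw [UnitAddTorus.span_mFourier_closure_eq_top] at h2
    exact h2 (Submodule.mem_top (x := φ))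
  refine ae_eq_zero_of_forall_setIntegral_isClosed_eq_zero hg fun s hs => ?_
  have hlim : Tendsto (fun n => ∫ t, ((hs.apprSeq n t : ℝ) : ℂ) * g t ∂μ) atTop
      (𝓝 (∫ t, s.indicator g t ∂μ)) := by
    refine tendsto_integral_of_dominated_convergence (fun t => ‖g t‖) (fun n => ?_) hg.norm
      (fun n => ae_of_all _ fun t => ?_) (ae_of_all _ fun t => ?_)
    · refine AEStronglyMeasurable.mul (Continuous.aestronglyMeasurable ?_) hg.1
      exact Complex.continuous_ofReal.comp (NNReal.continuous_coe.comp (hs.apprSeq n).continuous)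
    · rw [norm_mul, Complex.norm_real, Real.norm_eq_abs, abs_of_nonneg (NNReal.coe_nonneg _)]
      have : ((hs.apprSeq n t : NNReal) : ℝ) ≤ 1 := by
        exact_mod_cast HasOuterApproxClosed.apprSeq_apply_le_one hs n t
      exact mul_le_of_le_one_left (norm_nonneg _) this
    · have h1 := tendsto_pi_nhds.1 (HasOuterApproxClosed.tendsto_apprSeq hs) t
      have h2 := ((Complex.continuous_ofReal.comp NNReal.continuous_coe).tendsto _).comp h1
      have h3 := h2.mul_const (g t)
      have e : (Complex.ofReal ∘ NNReal.toReal) (s.indicator (fun _ => (1 : NNReal)) t) * g t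
          = s.indicator g t := by
        by_cases ht : t ∈ s
        · simp [Set.indicator_of_mem ht]
        · simp [Set.indicator_of_notMem ht]
      rw [e] at h3
      exact h3
  have hz : ∀ n, ∫ t, ((hs.apprSeq n t : ℝ) : ℂ) * g t ∂μ = 0 := fun n =>
    hL ⟨fun t => ((hs.apprSeq n t : ℝ) : ℂ),
      Complex.continuous_ofReal.comp (NNReal.continuous_coe.comp (hs.apprSeq n).continuous)⟩
  simp only [hz] at hlim
  rw [← integral_indicator hs.measurableSet]
  exact tendsto_nhds_unique hlim tendsto_const_nhds |>.symm ▸ rfl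

theorem uniq_L1 (d : ℕ) (f : (Fin d → ℝ) → ℂ) (hf : Integrable f (TP d))
    (h : ∀ k : Fin d → ℤ, fc f k = 0) : f =ᵐ[TP d] 0 := by
  have := TP_prob d
  have hp1 : IsProbabilityMeasure (ENNReal.ofReal (2 * π)⁻¹ • volume.restrict (Set.Ico 0 (2 * π))) := by
    constructor
    have h1 := fcu_pi1.measure_preimage MeasurableSet.univ.nullMeasurableSet
    rw [Set.preimage_univ] at h1
    rw [h1]
    exact measure_univ
  let P : (Fin d → ℝ) → UnitAddTorus (Fin d) := fun x j => ((x j * (2 * π)⁻¹ : ℝ) : UnitAddCircle)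
  have hP : MeasurePreserving P (TP d)
      (Measure.pi fun _ : Fin d => (AddCircle.haarAddCircle : Measure UnitAddCircle)) :=
    measurePreserving_pi _ _ (fun _ => fcu_pi1)
  let σ : UnitAddTorus (Fin d) → (Fin d → ℝ) := fun t j => 2 * π * (AddCircle.equivIco 1 0 (t j) : ℝ)
  have hσ : Measurable σ := by
    rw [measurable_pi_iff]
    intro j
    have h1 : Measurable fun t : UnitAddTorus (Fin d) => AddCircle.measurableEquivIco 1 0 (t j) :=
      (AddCircle.measurableEquivIco 1 0).measurable.comp (measurable_pi_apply j)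
    exact (measurable_subtype_coe.comp h1).const_mul _
  have hσP : ∀ᵐ x ∂(TP d), σ (P x) = x := by
    have h1 : ∀ᵐ x ∂(TP d), ∀ j, x j ∈ Set.Ico 0 (2 * π) := by
      rw [ae_all_iff]
      intro j
      have h2 : ∀ᵐ y ∂(ENNReal.ofReal (2 * π)⁻¹ • volume.restrict (Set.Ico 0 (2 * π))),
          y ∈ Set.Ico 0 (2 * π) :=
        Measure.ae_smul_measure (ae_restrict_mem measurableSet_Ico) _
      exact (Measure.tendsto_eval_ae_ae (i := j)).eventually h2
    filter_upwards [h1] with x hx
    funext j
    have hpi : 0 < 2 * π := by positivity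
    have h3 : x j * (2 * π)⁻¹ ∈ Set.Ico (0 : ℝ) (0 + 1) := by
      have := hx j
      refine ⟨mul_nonneg this.1 (by positivity), ?_⟩
      rw [zero_add, ← div_eq_mul_inv, div_lt_one hpi]
      exact this.2
    change 2 * π * (AddCircle.equivIco 1 0 ((x j * (2 * π)⁻¹ : ℝ) : AddCircle (1:ℝ)) : ℝ) = x j
    rw [AddCircle.equivIco_coe_of_mem h3]
    field_simp
  obtain ⟨f', hf's, hff'⟩ : ∃ f', StronglyMeasurable f' ∧ f =ᵐ[TP d] f' :=
    ⟨hf.1.mk f, hf.1.stronglyMeasurable_mk, hf.1.ae_eq_mk⟩
  have hf'p : Integrable f' (TP d) := (integrable_congr hff').1 hf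
  let g : UnitAddTorus (Fin d) → ℂ := fun t => f' (σ t)
  have hgs : StronglyMeasurable g := hf's.comp_measurable hσ
  have hgP : (fun x => g (P x)) =ᵐ[TP d] f' := by
    filter_upwards [hσP] with x hx
    change f' (σ (P x)) = f' x
    rw [hx]
  have hg2 : Integrable g
      (Measure.pi fun _ : Fin d => (AddCircle.haarAddCircle : Measure UnitAddCircle)) := by
    rw [← hP.map_eq]
    rw [integrable_map_measure hgs.aestronglyMeasurable hP.measurable.aemeasurable]
    exact (integrable_congr hgP).2 hf'p
  have hg0 := uniq_torus g hg2 (by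
    intro n
    rw [← hP.map_eq]
    refine (integral_map (f := fun t => UnitAddTorus.mFourier (-n) t * g t)
      hP.measurable.aemeasurable
      (((UnitAddTorus.mFourier (-n)).continuous.stronglyMeasurable.mul
        hgs).aestronglyMeasurable)).trans ?_
    rw [← h n]
    unfold fc
    apply integral_congr_ae
    filter_upwards [hgP, hff'] with x hx hx'
    have h1 : g (P x) = f' x := hx
    rw [h1, hx', mul_comm]
    congr 1
    change ∏ i, fourier ((-n) i) (((x i * (2 * π)⁻¹ : ℝ) : AddCircle (1:ℝ))) = _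
    simp only [fourier_coe_apply]
    rw [← Complex.exp_sum]
    congr 1
    push_cast
    rw [Finset.mul_sum, ← Finset.sum_neg_distrib]
    refine Finset.sum_congr rfl fun i _ => ?_
    have hpi : (π : ℂ) ≠ 0 := by exact_mod_cast Real.pi_ne_zero
    simp only [Pi.neg_apply]
    push_cast
    field_simp)
  have h3 : (fun x => g (P x)) =ᵐ[TP d] 0 := hP.quasiMeasurePreserving.ae_eq_comp hg0
  exact hff'.trans (hgP.symm.trans h3)

/-- an integrable function is controlled in `L_p` by the `L_p` norms of its layers -/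
theorem tail_Lp (d : ℕ) (p : ℝ≥0∞) (hp : 1 ≤ p) (f : (Fin d → ℝ) → ℂ) (hf : Integrable f (TP d))
    (u : ℕ → ℝ) (hu0 : ∀ n, 0 ≤ u n) (hu : Summable u)
    (hb : ∀ n, eLpNorm (lay d n f) p (TP d) ≤ ENNReal.ofReal (u n)) (N : ℕ) :
    eLpNorm (fun x => f x - ∑ n ∈ Finset.range N, lay d n f x) p (TP d)
      ≤ ENNReal.ofReal (∑' n, u (n + N)) := by
  have := TP_prob d
  have hlc : ∀ n, Continuous (lay d n f) := by
    intro n
    unfold lay
    exact continuous_finsetSum _ fun l _ => continuous_const.mul (wt_cont_exp d l)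
  have hm : ∀ n, AEStronglyMeasurable (lay d n f) (TP d) := fun n => (hlc n).aestronglyMeasurable
  have hb1 : ∀ n, eLpNorm (lay d n f) 1 (TP d) ≤ ENNReal.ofReal (u n) := fun n =>
    (eLpNorm_le_eLpNorm_of_exponent_le hp (hm n)).trans (hb n)
  have hint : ∀ n, Integrable (lay d n f) (TP d) := fun n =>
    memLp_one_iff_integrable.1 ⟨hm n, (hb1 n).trans_lt ENNReal.ofReal_lt_top⟩
  have hn1 : ∀ n, ∫ x, ‖lay d n f x‖ ∂(TP d) ≤ u n := by
    intro n
    have h1 := hb1 n
    rw [eLpNorm_one_eq_lintegral_enorm, ← ofReal_integral_norm_eq_lintegral_enorm (hint n)] at h1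
    exact (ENNReal.ofReal_le_ofReal_iff (hu0 n)).1 h1
  have hsum : ∀ᵐ x ∂(TP d), Summable (fun n => ‖lay d n f x‖) := by
    refine summable_norm_of_tsum_eLpNorm_ne_top hp hm (ne_top_of_le_ne_top ?_
      (ENNReal.tsum_le_tsum hb))
    rw [← ENNReal.ofReal_tsum_of_nonneg hu0 hu]
    exact ENNReal.ofReal_ne_top
  -- norms of blocks of layers
  have hblk : ∀ (q : ℝ≥0∞), 1 ≤ q → (∀ n, eLpNorm (lay d n f) q (TP d) ≤ ENNReal.ofReal (u n)) →
      ∀ N : ℕ, eLpNorm (fun x => ∑' n, lay d (n + N) f x) q (TP d)
        ≤ ENNReal.ofReal (∑' n, u (n + N)) := by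
    intro q hq hbq N
    refine Lp.eLpNorm_le_of_ae_tendsto (u := atTop)
      (f := fun K => ∑ n ∈ Finset.range K, lay d (n + N) f) (Eventually.of_forall fun K => ?_)
      (fun K => Finset.aestronglyMeasurable_sum _ fun n _ => hm _) ?_
    · refine (eLpNorm_sum_le (fun n _ => hm _) hq).trans ?_
      refine (Finset.sum_le_sum fun n _ => hbq (n + N)).trans ?_
      rw [← ENNReal.ofReal_sum_of_nonneg (fun n _ => hu0 _)]
      exact ENNReal.ofReal_le_ofReal (((summable_nat_add_iff N).2 hu).sum_le_tsum _
        (fun n _ => hu0 _))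
    · filter_upwards [hsum] with x hx
      simp only [Finset.sum_apply]
      exact ((summable_nat_add_iff N).2 hx.of_norm).hasSum.tendsto_sum_nat
  set S : (Fin d → ℝ) → ℂ := fun x => ∑' n, lay d n f x with hS
  have hSm : AEStronglyMeasurable S (TP d) := by
    refine aestronglyMeasurable_of_tendsto_ae atTop
      (f := fun K => ∑ n ∈ Finset.range K, lay d n f)
      (fun K => Finset.aestronglyMeasurable_sum _ fun n _ => hm _) ?_
    filter_upwards [hsum] with x hx
    simp only [Finset.sum_apply]
    exact hx.of_norm.hasSum.tendsto_sum_nat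
  have hSi : Integrable S (TP d) :=
    memLp_one_iff_integrable.1 ⟨hSm, (hblk 1 le_rfl hb1 0).trans_lt ENNReal.ofReal_lt_top⟩
  have hfcS : ∀ k, fc S k = fc f k := by
    intro k
    have h1 : fc S k = ∑' n, fc (lay d n f) k := by
      have h2 : fc S k = ∫ x, ∑' n, (lay d n f x *
          Complex.exp (-(Complex.I * ((∑ j, (k j : ℝ) * x j : ℝ) : ℂ)))) ∂(TP d) := by
        unfold fc
        congr 1
        funext x
        rw [hS, tsum_mul_right]
      rw [h2]
      symm
      apply integral_tsum_of_summable_integral_norm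
      · intro n
        exact (hint n).mul_bdd (c := 1) (wt_cont_exp' d k).aestronglyMeasurable
          (ae_of_all _ (fun x => (wt_norm_exp' _).le))
      · refine Summable.of_nonneg_of_le (fun n => integral_nonneg (fun x => norm_nonneg _))
          (fun n => ?_) hu
        simp only [norm_mul, wt_norm_exp', mul_one]
        exact hn1 n
    rw [h1]
    simp only [wt_fc_lay, wt_layer_iff]
    rw [tsum_eq_single (∑ j, (k j).natAbs.size)]
    · rw [if_pos rfl]
    · intro n hn
      rw [if_neg hn]
  have hg0 : ∀ k, fc (fun x => f x - S x) k = 0 := by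
    intro k
    have h1 : fc (fun x => f x - S x) k = fc f k - fc S k := by
      unfold fc
      rw [← integral_sub]
      · congr 1
        funext x
        ring
      · exact hf.mul_bdd (c := 1) (wt_cont_exp' d k).aestronglyMeasurable
          (ae_of_all _ (fun x => (wt_norm_exp' _).le))
      · exact hSi.mul_bdd (c := 1) (wt_cont_exp' d k).aestronglyMeasurable
          (ae_of_all _ (fun x => (wt_norm_exp' _).le))
    rw [h1, hfcS, sub_self]
  have hz := uniq_L1 d (fun x => f x - S x) (hf.sub hSi) hg0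
  refine le_trans (le_of_eq (eLpNorm_congr_ae ?_)) (hblk p hp hb N)
  filter_upwards [hz, hsum] with x hx hsx
  have hx1 : f x = S x := sub_eq_zero.mp hx
  rw [hx1, hS]
  have := hsx.of_norm.sum_add_tsum_nat_add N
  dsimp only
  rw [← this]
  ring

end H952Ent
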