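import Pool.Agent.H952Z.Ent.Lower
import Pool.Agent.H952Z.Ent.Uniq
import Pool.Agent.MWidth.L_num_sums
import Pool.Agent.MWidth.L_k_num
open MeasureTheory Real Filter Topology
open scoped ENNReal BigOperators

/-! The upper bound. -/

namespace H952Ent
open HypVol MWidth Sol_lower_cover1 Sol_num_sums

noncomputable def coef (n : ℕ) (f : (Fin 2 → ℝ) → ℂ) (q : (layer 2 n) × Fin 2) : ℝ :=
  if q.2 = 0 then (fc f q.1.1).re else (fc f q.1.1).im

theorem lay_coef {n : ℕ} (f : (Fin 2 → ℝ) → ℂ) : lay 2 n f = poly (coef n f) := by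
  funext x
  unfold lay poly
  rw [← Finset.sum_coe_sort]
  refine Finset.sum_congr rfl fun k _ => ?_
  congr 1
  have h0 : coef n f (k, 0) = (fc f k.1).re := by simp [coef]
  have h1 : coef n f (k, 1) = (fc f k.1).im := by simp [coef]
  rw [h0, h1]
  exact (Complex.re_add_im _).symm

theorem poly_smul' {n : ℕ} (t : ℝ) (a : (layer 2 n) × Fin 2 → ℝ) (x : Fin 2 → ℝ) :
    poly (t • a) x = (t : ℂ) * poly a x := by
  simp only [poly, Finset.mul_sum]
  refine Finset.sum_congr rfl fun k _ => ?_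
  simp only [Pi.smul_apply, smul_eq_mul]
  push_cast
  ring

theorem W1_layer {a b : ℝ} {f : (Fin 2 → ℝ) → ℂ} (hf : f ∈ W1 a b) (n : ℕ) :
    ∃ x ∈ B1 n, lay 2 n f = (lm a b n : ℂ) • poly x := by
  have hl := lm_pos a b n
  refine ⟨(lm a b n)⁻¹ • coef n f, ?_, ?_⟩
  · have h1 := hf.2 n
    rw [lay_coef, poly_L1] at h1
    have h2 : ∫ x, ‖poly (coef n f) x‖ ∂(TP 2) ≤ lm a b n :=
      (ENNReal.ofReal_le_ofReal_iff hl.le).1 h1
    show ∫ x, ‖poly ((lm a b n)⁻¹ • coef n f) x‖ ∂(TP 2) ≤ 1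
    simp only [poly_smul', norm_mul, Complex.norm_real, Real.norm_of_nonneg (inv_pos.2 hl).le]
    rw [integral_const_mul, inv_mul_le_iff₀ hl, mul_one]
    exact h2
  · rw [lay_coef]
    funext z
    rw [Pi.smul_apply, smul_eq_mul, poly_smul', ← mul_assoc, ← Complex.ofReal_mul,
      mul_inv_cancel₀ hl.ne', Complex.ofReal_one, one_mul]

noncomputable def uu (p a b : ℝ) (n : ℕ) : ℝ := lm a b n * (2000000 * MM n) ^ (1 - 1 / p)

theorem uu_nonneg (p a b : ℝ) (n : ℕ) : 0 ≤ uu p a b n := by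
  have := lm_pos a b n
  have := MM_pos n
  unfold uu
  positivity

theorem uu_summable (p a b : ℝ) (ha : 1 - 1 / p < a) : Summable (uu p a b) := by
  set β : ℝ := 1 - 1 / p with hβ
  refine Summable.of_nonneg_of_le (uu_nonneg p a b) (fun n => ?_)
    ((nsG_summable (|b| + β) (a - β) (by linarith)).mul_left ((64000000:ℝ) ^ β))
  have hn : (0:ℝ) ≤ n := Nat.cast_nonneg n
  have hm : (1:ℝ) ≤ max (n:ℝ) 1 := le_max_right _ _
  have h1 : (max (n:ℝ) 1)^b ≤ (1 + (n:ℝ))^|b| := by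
    have := ns_ratio b (p := max (n:ℝ) 1) (q := 1) (j := n) (by linarith) one_pos hn
      (by rw [one_mul]; exact max_le (by linarith) (by linarith)) (by nlinarith)
    rwa [Real.one_rpow, one_mul] at this
  have h2 : (2000000 * MM n) ^ β = (64000000:ℝ) ^ β * (1 + (n:ℝ)) ^ β * (2:ℝ) ^ (β * n) := by
    rw [mul_comm β, Real.rpow_mul (by norm_num), Real.rpow_natCast,
      ← Real.mul_rpow (by norm_num) (by linarith), ← Real.mul_rpow (by positivity) (by positivity)]
    congr 1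
    unfold MM
    ring
  unfold uu lm nsG
  rw [← hβ, h2, Real.rpow_add (by linarith), show -((a - β) * n) = -(a * n) + β * n by ring,
    Real.rpow_add (by norm_num)]
  have h3 : 0 ≤ (2:ℝ)^(-(a * n)) * ((64000000:ℝ) ^ β * (1 + (n:ℝ)) ^ β * (2:ℝ) ^ (β * n)) := by
    positivity
  nlinarith [mul_le_mul_of_nonneg_left h1 h3]

theorem W1_tail (p : ℝ) (hp : 1 < p) (hp2 : p < 2) (a b : ℝ) (ha : 1 - 1 / p < a)
    {f : (Fin 2 → ℝ) → ℂ} (hf : f ∈ W1 a b) (N : ℕ) :
    eLpNorm (fun x => f x - ∑ n ∈ Finset.range N, lay 2 n f x) (ENNReal.ofReal p) (TP 2)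
      ≤ ENNReal.ofReal (∑' n, uu p a b (n + N)) := by
  refine tail_Lp 2 _ (ENNReal.one_le_ofReal.2 hp.le) f hf.1 _ (uu_nonneg p a b)
    (uu_summable p a b ha) (fun n => ?_) N
  obtain ⟨x, hx, e⟩ := W1_layer hf n
  have hl := lm_pos a b n
  rw [e, eLpNorm_const_smul, ← ofReal_norm, Complex.norm_real, Real.norm_of_nonneg hl.le, uu,
    ENNReal.ofReal_mul hl.le]
  exact mul_le_mul_right (layer_triv p hp hp2 n x hx) _

theorem glue (p : ℝ) (hp : 1 < p) (hp2 : p < 2) (a b : ℝ) (ha : 1 - 1 / p < a) (N : ℕ)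
    (cN eps : ℕ → ℝ) (he : ∀ n, 0 ≤ eps n)
    (hF : ∀ n, ∃ F : Finset ((layer 2 n) × Fin 2 → ℝ), (F.card : ℝ) ≤ Real.exp (cN n) ∧
      ∀ x ∈ B1 n, ∃ y ∈ F, eLpNorm (poly (x - y)) (ENNReal.ofReal p) (TP 2)
        ≤ ENNReal.ofReal (eps n)) :
    ∃ G : Finset ((Fin 2 → ℝ) → ℂ), (∀ g ∈ G, MemLp g (ENNReal.ofReal p) (TP 2)) ∧
      (G.card : ℝ) ≤ Real.exp (∑ n ∈ Finset.range N, cN n) ∧
      ∀ f ∈ W1 a b, ∃ g ∈ G, eLpNorm (fun x => f x - g x) (ENNReal.ofReal p) (TP 2)
        ≤ ENNReal.ofReal (∑' n, uu p a b (n + N) + ∑ n ∈ Finset.range N, lm a b n * eps n) := by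
  classical
  choose F hFc hFe using hF
  have hp1 : (1 : ℝ≥0∞) ≤ ENNReal.ofReal p := ENNReal.one_le_ofReal.2 hp.le
  refine ⟨(Fintype.piFinset (fun n : Fin N => F n)).image
    (fun y => fun x => ∑ n : Fin N, (lm a b n : ℂ) * poly (y n) x), ?_, ?_, ?_⟩
  · intro g hg
    obtain ⟨y, _, rfl⟩ := Finset.mem_image.1 hg
    exact memLp_finsetSum _ fun n _ => (poly_memLp _ (y n)).const_mul _
  · refine (Nat.cast_le.2 Finset.card_image_le).trans ?_
    rw [Fintype.card_piFinset, Nat.cast_prod, ← Fin.sum_univ_eq_sum_range cN N, Real.exp_sum]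
    exact Finset.prod_le_prod (fun n _ => Nat.cast_nonneg _) (fun n _ => hFc n)
  · intro f hf
    choose x hxb hxl using W1_layer hf
    choose y hyF hyE using fun n => hFe n (x n) (hxb n)
    refine ⟨_, Finset.mem_image_of_mem _ (Fintype.mem_piFinset.2 (fun n : Fin N => hyF n)), ?_⟩
    have hmeas1 : AEStronglyMeasurable (fun z => f z - ∑ n ∈ Finset.range N, lay 2 n f z) (TP 2) := by
      refine hf.1.1.sub ?_
      have hc : Continuous (fun z => ∑ n ∈ Finset.range N, lay 2 n f z) := by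
        refine continuous_finsetSum _ fun n _ => ?_
        rw [lay_coef]
        exact poly_cont_753 _
      exact hc.aestronglyMeasurable
    have hmeas2 : ∀ n : ℕ, AEStronglyMeasurable
        ((lm a b n : ℂ) • (poly (x n - y n) : (Fin 2 → ℝ) → ℂ)) (TP 2) := fun n =>
      ((poly_cont_753 (x n - y n)).const_smul _).aestronglyMeasurable
    have hdec : (fun z => f z - ∑ n : Fin N, (lm a b n : ℂ) * poly (y n) z)
        = (fun z => f z - ∑ n ∈ Finset.range N, lay 2 n f z)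
          + ∑ n ∈ Finset.range N, (lm a b n : ℂ) • (poly (x n - y n) : (Fin 2 → ℝ) → ℂ) := by
      funext z
      simp only [Pi.add_apply, Finset.sum_apply, Pi.smul_apply, smul_eq_mul, poly_sub']
      rw [Fin.sum_univ_eq_sum_range (fun n => (lm a b n : ℂ) * poly (y n) z) N]
      have : ∀ n, lay 2 n f z = (lm a b n : ℂ) * poly (x n) z := fun n => by rw [hxl n]; rfl
      simp only [this, mul_sub, Finset.sum_sub_distrib]
      ring
    rw [hdec, ENNReal.ofReal_add (tsum_nonneg fun n => uu_nonneg p a b _)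
      (Finset.sum_nonneg fun n _ => mul_nonneg (lm_pos a b n).le (he n))]
    refine (eLpNorm_add_le hmeas1 (Finset.aestronglyMeasurable_sum _ fun n _ => hmeas2 n) hp1).trans ?_
    refine add_le_add (W1_tail p hp hp2 a b ha hf N) ?_
    refine (eLpNorm_sum_le (fun n _ => hmeas2 n) hp1).trans ?_
    rw [ENNReal.ofReal_sum_of_nonneg (fun n _ => mul_nonneg (lm_pos a b n).le (he n))]
    refine Finset.sum_le_sum fun n _ => ?_
    rw [eLpNorm_const_smul, ENNReal.ofReal_mul (lm_pos a b n).le]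
    refine mul_le_mul' ?_ (hyE n)
    rw [← ofReal_norm, Complex.norm_real, Real.norm_eq_abs, abs_of_pos (lm_pos a b n)]

theorem ratio_bound (μ : ℝ) (m j : ℕ) (hm : 1 ≤ m) :
    MM (m + j) / (2^m * m * (2:ℝ)^(-(μ * j))) ≤ 64 * (1 + j) * (2:ℝ)^((1 + μ) * j) := by
  have hm0 : (1:ℝ) ≤ m := by exact_mod_cast hm
  have hj : (0:ℝ) ≤ j := Nat.cast_nonneg j
  rw [div_le_iff₀ (by positivity)]
  have e : (2:ℝ)^((1 + μ) * j) * (2:ℝ)^(-(μ * j)) = 2^j := by
    rw [← Real.rpow_add (by norm_num), ← Real.rpow_natCast]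
    congr 1
    ring
  have e2 : 64 * (1 + j) * (2:ℝ)^((1 + μ) * j) * (2^m * m * (2:ℝ)^(-(μ * j)))
      = 64 * (1 + j) * m * (2^m * 2^j) := by rw [← e]; ring
  rw [e2]
  unfold MM
  rw [pow_add]
  refine mul_le_mul_of_nonneg_right ?_ (by positivity)
  push_cast
  nlinarith

theorem log_aux {L A B D μ j : ℝ} (b1 : L ≤ A + B + D) (b2 : B ≤ j) (b3 : D ≤ (1 + μ) * j)
    (b4 : A ≤ 5) (hj : 0 ≤ j) (hμ : 0 ≤ μ) : L + 2 ≤ (7 + μ) * (1 + j) := by
  nlinarith

theorem cover (p : ℝ) (hp : 1 < p) (hp2 : p < 2) (a b : ℝ) (ha : 1 - 1 / p < a) : ∃ C : ℝ, 0 < C ∧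
    ∀ m : ℕ, 1 ≤ m → ∃ G : Finset ((Fin 2 → ℝ) → ℂ),
      (∀ g ∈ G, MemLp g (ENNReal.ofReal p) (TP 2)) ∧
      (G.card : ℝ) ≤ Real.exp (C * 2^m * (m:ℝ)^1) ∧
      ∀ f ∈ W1 a b, ∃ g ∈ G, eLpNorm (fun x => f x - g x) (ENNReal.ofReal p) (TP 2)
        ≤ ENNReal.ofReal (C * (2:ℝ)^(-(a * m)) * (m:ℝ)^(b + 1/2 - 1/2)) := by
  set β : ℝ := 1 - 1 / p with hβ
  have hβ0 : 0 < β := by
    rw [hβ, sub_pos, div_lt_one (by linarith)]; exact hp
  have ha0 : 0 < a := hβ0.trans ha
  set μ : ℝ := (a - β) / (2 * β) with hμ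
  have hμ0 : 0 < μ := div_pos (by linarith) (by linarith)
  set ε : ℝ := (a - β) / 2 with hε
  have hε0 : 0 < ε := by rw [hε]; linarith
  have hεμ : (1 + μ) * β = a - ε := by rw [hμ, hε]; field_simp; ring
  obtain ⟨C1, hC1, s1⟩ := ns_p1 a (b + 1/2)
  obtain ⟨C4, hC4, s4⟩ := ns_p4 1
  set T1 : ℝ := ∑' j, nsG 1 μ j with hT1
  set T2 : ℝ := ∑' j, nsG (|b| + β) ε j with hT2
  have hT10 : 0 ≤ T1 := tsum_nonneg (nsG_nonneg _ _)
  have hT20 : 0 ≤ T2 := tsum_nonneg (nsG_nonneg _ _)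
  set K1 : ℝ := 64 * (a + 4) * C4 + (7 + μ) * T1 with hK1
  set K2 : ℝ := 1 + 1500 * C1 + 2 * (128000000:ℝ)^β * T2 with hK2
  have hK10 : 0 ≤ K1 := by positivity
  have hK20 : 0 < K2 := by positivity
  refine ⟨K1 + K2, by positivity, fun m hm => ?_⟩
  have hm0 : (1:ℝ) ≤ m := by exact_mod_cast hm
  set R : ℝ := (2:ℝ)^(-(a * m)) * (m:ℝ)^(b + 1/2 - 1/2) with hR
  have hR0 : 0 < R := by positivity
  obtain ⟨K, hK⟩ := eventually_atTop.1 ((tendsto_sum_nat_add (uu p a b)).eventually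
    (ge_mem_nhds hR0))
  set ρ : ℕ → ℝ := fun j => 2^m * m * (2:ℝ)^(-(μ * j)) with hρ
  have hρ0 : ∀ j, 0 < ρ j := fun j => by positivity
  set J : ℕ → ℝ := fun j => (2:ℝ)^((a + 1) * j) with hJ
  have hJ1 : ∀ j, 1 ≤ J j := fun j => Real.one_le_rpow (by norm_num) (by positivity)
  set cN : ℕ → ℝ := fun n => if n ≤ m then MM n * (1 + Real.log (4 * J (m - n)))
    else ρ (n - m) * (Real.log (2 * MM n / ρ (n - m)) + 2) with hcN
  set eps : ℕ → ℝ := fun n => if n ≤ m then 1500 / J (m - n)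
    else 2 * (2000000 * (MM n / ρ (n - m))) ^ β with heps
  have heps0 : ∀ n, 0 ≤ eps n := by
    intro n
    have := hJ1 (m - n)
    have := hρ0 (n - m)
    have := MM_pos n
    simp only [heps]
    split_ifs <;> positivity
  obtain ⟨G, hG1, hG2, hG3⟩ := glue p hp hp2 a b ha (m + 1 + K) cN eps heps0 (by
    intro n
    by_cases hn : n ≤ m
    · simp only [hcN, heps, if_pos hn]
      exact layer_fine p hp2 n _ (hJ1 _)
    · simp only [hcN, heps, if_neg hn]
      refine layer_coarse p hp hp2 n _ (hρ0 _) ?_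
      have h1 : (2:ℝ)^(-(μ * ((n - m : ℕ) : ℝ))) ≤ 1 :=
        Real.rpow_le_one_of_one_le_of_nonpos (by norm_num) (by
          have : 0 ≤ μ * ((n - m : ℕ) : ℝ) := by positivity
          linarith)
      have h2 : (2:ℝ)^m ≤ 2^n := pow_le_pow_right₀ (by norm_num) (by omega)
      have h3 : (m:ℝ) ≤ n := by exact_mod_cast (by omega : m ≤ n)
      have h4 : (2:ℝ)^m * m ≤ 2^n * n := mul_le_mul h2 h3 (by positivity) (by positivity)
      have h5 : (0:ℝ) < 2^n := by positivity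
      have h6 : ρ (n - m) ≤ 2^m * m := mul_le_of_le_one_right (by positivity) h1
      unfold MM
      nlinarith)
  have hl2 : Real.log 2 ≤ 1 := by
    have := Real.log_le_sub_one_of_pos (show (0:ℝ) < 2 by norm_num)
    linarith
  have hl20 : 0 < Real.log 2 := Real.log_pos (by norm_num)
  refine ⟨G, hG1, hG2.trans (Real.exp_le_exp.2 ?_), fun f hf => ?_⟩
  · rw [Finset.sum_range_add]
    have e1 : ∑ n ∈ Finset.range (m + 1), cN n ≤ 64 * (a + 4) * (C4 * 2^m * (m:ℝ)^1) := by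
      refine le_trans ?_ (mul_le_mul_of_nonneg_left (s4 m hm) (by positivity))
      rw [Finset.mul_sum]
      refine Finset.sum_le_sum fun n hn => ?_
      have hn' : n ≤ m := by simp only [Finset.mem_range] at hn; omega
      simp only [hcN, if_pos hn', hJ]
      have hj : (0:ℝ) ≤ ((m - n : ℕ) : ℝ) := Nat.cast_nonneg _
      have b1 : 1 + Real.log (4 * (2:ℝ)^((a + 1) * ((m - n : ℕ) : ℝ)))
          ≤ (a + 4) * (((m - n : ℕ) : ℝ) + 1) := by
        rw [Real.log_mul (by norm_num) (by positivity), Real.log_rpow (by norm_num),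
          show (4:ℝ) = 2^2 by norm_num, Real.log_pow]
        have : (a + 1) * ((m - n : ℕ) : ℝ) * Real.log 2 ≤ (a + 1) * ((m - n : ℕ) : ℝ) :=
          mul_le_of_le_one_right (by positivity) hl2
        push_cast
        nlinarith
      have b2 : MM n ≤ 64 * (2^n * (max (n:ℝ) 1)^1) := by
        unfold MM
        have h1 : (n:ℝ) + 1 ≤ 2 * max (n:ℝ) 1 := by
          linarith [le_max_left (n:ℝ) 1, le_max_right (n:ℝ) 1]
        have h2 : (0:ℝ) < 2^n := by positivity
        rw [pow_one]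
        nlinarith
      calc MM n * (1 + Real.log (4 * (2:ℝ)^((a + 1) * ((m - n : ℕ) : ℝ))))
          ≤ MM n * ((a + 4) * (((m - n : ℕ) : ℝ) + 1)) :=
            mul_le_mul_of_nonneg_left b1 (MM_pos n).le
        _ ≤ 64 * (2^n * (max (n:ℝ) 1)^1) * ((a + 4) * (((m - n : ℕ) : ℝ) + 1)) :=
            mul_le_mul_of_nonneg_right b2 (by positivity)
        _ = _ := by ring
    have e2 : ∑ i ∈ Finset.range K, cN (m + 1 + i) ≤ (7 + μ) * (2^m * m) * T1 := by
      refine le_trans ?_ (mul_le_mul_of_nonneg_left (ns_fin (nsG_summable 1 μ hμ0) (nsG_nonneg _ _)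
        (Finset.range K) (fun i => i + 1) (fun _ _ _ _ h => by simpa using h)) (by positivity))
      rw [Finset.mul_sum]
      refine Finset.sum_le_sum fun i _ => ?_
      have hn' : ¬ (m + 1 + i ≤ m) := by omega
      have e : m + 1 + i - m = i + 1 := by omega
      simp only [hcN, if_neg hn', e]
      have r := ratio_bound μ m (i + 1) hm
      rw [show m + (i + 1) = m + 1 + i by omega] at r
      set j : ℝ := ((i + 1 : ℕ) : ℝ) with hj
      have hj0 : 0 ≤ j := Nat.cast_nonneg _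
      have hMp := MM_pos (m + 1 + i)
      have hρp := hρ0 (i + 1)
      have b1 : Real.log (2 * MM (m + 1 + i) / ρ (i + 1)) ≤
          Real.log (128 * (1 + j) * (2:ℝ)^((1 + μ) * j)) := by
        refine Real.log_le_log (by positivity) ?_
        rw [mul_div_assoc]
        have : MM (m + 1 + i) / ρ (i + 1) ≤ 64 * (1 + j) * (2:ℝ)^((1 + μ) * j) := r
        linarith
      rw [Real.log_mul (by positivity) (by positivity), Real.log_mul (by norm_num) (by positivity),
        Real.log_rpow (by norm_num), show (128:ℝ) = 2^7 by norm_num, Real.log_pow] at b1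
      have b2 : Real.log (1 + j) ≤ j := by
        have := Real.log_le_sub_one_of_pos (show (0:ℝ) < 1 + j by linarith)
        linarith
      have b3 : (1 + μ) * j * Real.log 2 ≤ (1 + μ) * j :=
        mul_le_of_le_one_right (by positivity) hl2
      have b4 : ((7:ℕ):ℝ) * Real.log 2 ≤ 5 := by
        have := Real.log_two_lt_d9
        push_cast
        linarith
      have b5 : Real.log (2 * MM (m + 1 + i) / ρ (i + 1)) + 2 ≤ (7 + μ) * (1 + j) := by
        exact log_aux b1 b2 b3 b4 hj0 hμ0.le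
      refine (mul_le_mul_of_nonneg_left b5 hρp.le).trans (le_of_eq ?_)
      simp only [hρ, nsG, Real.rpow_one]
      ring
    have e3 : (0:ℝ) ≤ K2 * (2^m * m) := by positivity
    have e4 : (K1 + K2) * 2^m * (m:ℝ)^1 = 64 * (a + 4) * (C4 * 2^m * (m:ℝ)^1) +
        (7 + μ) * (2^m * m) * T1 + K2 * (2^m * m) := by rw [hK1]; ring
    linarith
  · obtain ⟨g, hg, hgE⟩ := hG3 f hf
    refine ⟨g, hg, hgE.trans (ENNReal.ofReal_le_ofReal ?_)⟩
    have e0 : ∑' n, uu p a b (n + (m + 1 + K)) ≤ R := hK _ (by omega)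
    rw [Finset.sum_range_add]
    have e1 : ∑ n ∈ Finset.range (m + 1), lm a b n * eps n ≤ 1500 * (C1 * R) := by
      have := s1 m hm
      rw [mul_assoc, ← hR] at this
      refine le_trans (le_of_eq ?_) (mul_le_mul_of_nonneg_left this (by norm_num))
      rw [Finset.mul_sum]
      refine Finset.sum_congr rfl fun n hn => ?_
      have hn' : n ≤ m := by simp only [Finset.mem_range] at hn; omega
      have hx : (0:ℝ) < max (n:ℝ) 1 := lt_of_lt_of_le one_pos (le_max_right _ _)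
      have e := ns_sqrt (b + 1/2) hx
      rw [show b + 1/2 - 1/2 = b by ring] at e
      simp only [heps, if_pos hn', hJ, lm]
      rw [← e, Real.rpow_neg (by norm_num) ((a + 1) * _)]
      ring
    have e2 : ∑ i ∈ Finset.range K, lm a b (m + 1 + i) * eps (m + 1 + i)
        ≤ 2 * (128000000:ℝ)^β * R * T2 := by
      refine le_trans ?_ (mul_le_mul_of_nonneg_left (ns_fin (nsG_summable (|b| + β) ε hε0)
        (nsG_nonneg _ _) (Finset.range K) (fun i => i + 1) (fun _ _ _ _ h => by simpa using h))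
        (by positivity))
      rw [Finset.mul_sum]
      refine Finset.sum_le_sum fun i _ => ?_
      have hn' : ¬ (m + 1 + i ≤ m) := by omega
      have e : m + 1 + i - m = i + 1 := by omega
      simp only [heps, if_neg hn', e]
      have r := ratio_bound μ m (i + 1) hm
      rw [show m + (i + 1) = m + 1 + i by omega] at r
      set j : ℝ := ((i + 1 : ℕ) : ℝ) with hj
      have hj0 : 0 ≤ j := Nat.cast_nonneg _
      have hMp := MM_pos (m + 1 + i)
      have hρp := hρ0 (i + 1)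
      have hcast : ((m + 1 + i : ℕ) : ℝ) = m + j := by rw [hj]; push_cast; ring
      have b1 : (2000000 * (MM (m + 1 + i) / ρ (i + 1))) ^ β ≤
          (128000000:ℝ)^β * (1 + j)^β * (2:ℝ)^((a - ε) * j) := by
        rw [← hεμ, show (1 + μ) * β * j = (1 + μ) * j * β by ring, Real.rpow_mul (by norm_num),
          ← Real.mul_rpow (by norm_num) (by linarith),
          ← Real.mul_rpow (by positivity) (by positivity)]
        refine Real.rpow_le_rpow (by positivity) ?_ hβ0.le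
        have : MM (m + 1 + i) / ρ (i + 1) ≤ 64 * (1 + j) * (2:ℝ)^((1 + μ) * j) := r
        linarith
      have b2 : lm a b (m + 1 + i) ≤ R * ((2:ℝ)^(-(a * j)) * (1 + j)^|b|) := by
        unfold lm
        rw [hcast, max_eq_left (by linarith), show -(a * (m + j)) = -(a * m) + -(a * j) by ring,
          Real.rpow_add (by norm_num), hR, show b + 1/2 - 1/2 = b by ring]
        have := ns_ratio b (p := m + j) (q := m) (j := j) (by linarith) (by linarith) hj0
          (by nlinarith) (by nlinarith)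
        have h3 : 0 ≤ (2:ℝ)^(-(a * m)) * (2:ℝ)^(-(a * j)) := by positivity
        nlinarith [mul_le_mul_of_nonneg_left this h3]
      have b3 : (2:ℝ)^(-(a * j)) * (2:ℝ)^((a - ε) * j) = (2:ℝ)^(-(ε * j)) := by
        rw [← Real.rpow_add (by norm_num)]
        congr 1
        ring
      calc lm a b (m + 1 + i) * (2 * (2000000 * (MM (m + 1 + i) / ρ (i + 1))) ^ β)
          ≤ (R * ((2:ℝ)^(-(a * j)) * (1 + j)^|b|)) *
            (2 * ((128000000:ℝ)^β * (1 + j)^β * (2:ℝ)^((a - ε) * j))) :=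
            mul_le_mul b2 (by linarith) (by positivity) (by positivity)
        _ = 2 * (128000000:ℝ)^β * R * (((1 + j)^|b| * (1 + j)^β) *
            ((2:ℝ)^(-(a * j)) * (2:ℝ)^((a - ε) * j))) := by ring
        _ = _ := by
            rw [b3, ← Real.rpow_add (by linarith)]
            rfl
    have e3 : 0 ≤ K1 * R := by positivity
    have e4 : (K1 + K2) * (2:ℝ)^(-(a * m)) * (m:ℝ)^(b + 1/2 - 1/2) = K1 * R +
        (R + (1500 * (C1 * R) + 2 * (128000000:ℝ)^β * R * T2)) := by rw [hK2, hR]; ring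
    linarith

theorem upper_bound (p : ℝ) (hp : 1 < p) (hp2 : p < 2) (a b : ℝ) (ha : 1 - 1 / p < a) :
    ∃ C : ℝ, 0 < C ∧ ∀ k : ℕ, 2 ≤ k → entP 2 p k (W1 a b)
      ≤ ENNReal.ofReal (C * (k:ℝ)^(-a) * (Real.log k)^(a + b)) := by
  classical
  have ha0 : 0 < a := by
    have : 0 < 1 - 1 / p := by rw [sub_pos, div_lt_one (by linarith)]; exact hp
    linarith
  obtain ⟨C0, hC0, hcov⟩ := cover p hp hp2 a b ha
  obtain ⟨C1, hC1, hk⟩ := k_num 1 a (b + 1/2) C0 ha0 hC0
  set T : ℝ := ∑' n : ℕ, uu p a b (n + 0) with hT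
  have hT0 : 0 ≤ T := tsum_nonneg (fun n => uu_nonneg p a b _)
  have hE : ((1 : ℕ) : ℝ) * a + (b + 1/2) - 1/2 = a + b := by push_cast; ring
  rw [hE] at hk
  refine ⟨C1 * (1 + (T + 1)), by positivity, ?_⟩
  intro k hk2
  set R : ℝ := (k:ℝ)^(-a) * (Real.log k)^(a + b) with hR
  have hR0 : 0 ≤ R := by
    have h1 : 0 ≤ Real.log k := Real.log_natCast_nonneg k
    positivity
  have hgoal : C1 * (1 + (T + 1)) * (k:ℝ)^(-a) * (Real.log k)^(a + b)
      = C1 * R + (T + 1) * (C1 * R) := by rw [hR]; ring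
  rw [hgoal]
  have h2 : C1 * (k:ℝ)^(-a) * (Real.log k)^(a + b) = C1 * R := by rw [hR]; ring
  rcases hk k hk2 with ⟨m, hm, hexp, hle⟩ | ⟨-, hone⟩
  · obtain ⟨G, hGm, hGc, hGf⟩ := hcov m hm
    have hcard : G.card ≤ 2^k := by
      have : (G.card : ℝ) ≤ ((2^k : ℕ) : ℝ) := by push_cast; exact hGc.trans hexp
      exact_mod_cast this
    let c : Fin (2^k) → ((Fin 2 → ℝ) → ℂ) := fun j =>
      if h : (j : ℕ) < G.card then (G.equivFin.symm ⟨j, h⟩ : (Fin 2 → ℝ) → ℂ) else 0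
    have hcmem : ∀ j, MemLp (c j) (ENNReal.ofReal p) (TP 2) := by
      intro j
      by_cases h : (j : ℕ) < G.card
      · simp only [c, dif_pos h]
        exact hGm _ (G.equivFin.symm ⟨j, h⟩).2
      · simp only [c, dif_neg h]
        exact MemLp.zero
    have hcov' : ∀ f ∈ W1 a b, ∃ j, eLpNorm (fun x => f x - c j x) (ENNReal.ofReal p) (TP 2)
        ≤ ENNReal.ofReal (C0 * (2:ℝ)^(-(a * m)) * (m:ℝ)^(b + 1/2 - 1/2)) := by
      intro f hf
      obtain ⟨g, hg, hgl⟩ := hGf f hf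
      let i := G.equivFin ⟨g, hg⟩
      have hi : (i : ℕ) < G.card := i.2
      refine ⟨⟨i, lt_of_lt_of_le hi hcard⟩, ?_⟩
      have hc : c ⟨i, lt_of_lt_of_le hi hcard⟩ = g := by
        simp only [c]
        rw [dif_pos hi]
        simp [i]
      rw [hc]
      exact hgl
    have hpos : (0:ℝ≥0∞) < ENNReal.ofReal (C0 * (2:ℝ)^(-(a * m)) * (m:ℝ)^(b + 1/2 - 1/2)) := by
      rw [ENNReal.ofReal_pos]
      have hm0 : (0:ℝ) < m := by exact_mod_cast hm
      positivity
    have h1 : entP 2 p k (W1 a b) ≤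
        ENNReal.ofReal (C0 * (2:ℝ)^(-(a * m)) * (m:ℝ)^(b + 1/2 - 1/2)) := by
      unfold entP
      exact iInf₂_le _ ⟨hpos, c, hcmem, hcov'⟩
    refine h1.trans (ENNReal.ofReal_le_ofReal ?_)
    rw [h2] at hle
    have h3 : 0 ≤ (T + 1) * (C1 * R) := by positivity
    linarith
  · rw [h2] at hone
    have hpos : (0:ℝ≥0∞) < ENNReal.ofReal (T + 1) := by
      rw [ENNReal.ofReal_pos]; linarith
    have hcov' : ∀ f ∈ W1 a b, ∃ j : Fin (2^k), eLpNorm
        (fun x => f x - (fun (_ : Fin (2^k)) => (0 : (Fin 2 → ℝ) → ℂ)) j x)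
        (ENNReal.ofReal p) (TP 2) ≤ ENNReal.ofReal (T + 1) := by
      intro f hf
      refine ⟨⟨0, by positivity⟩, ?_⟩
      have h3 := W1_tail p hp hp2 a b ha hf 0
      simp only [Finset.range_zero, Finset.sum_empty] at h3
      exact h3.trans (ENNReal.ofReal_le_ofReal (by linarith))
    have h1 : entP 2 p k (W1 a b) ≤ ENNReal.ofReal (T + 1) := by
      unfold entP
      exact iInf₂_le _ ⟨hpos, fun _ => 0, fun _ => MemLp.zero, hcov'⟩
    refine h1.trans (ENNReal.ofReal_le_ofReal ?_)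
    have h5 : (T + 1) * 1 ≤ (T + 1) * (C1 * R) := by
      apply mul_le_mul_of_nonneg_left hone; linarith
    have h6 : 0 ≤ C1 * R := by positivity
    linarith

end H952Ent
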